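import Pool.Agent.H40E9.LP.Fam

/-!
# The two kinds of ideals
-/

set_option autoImplicit false

namespace Pool.Agent.H40E9.LP

open Pool.Agent.Y110.FJ
open Pool.Agent.Y462.SS (Closed)
open Pool.Agent.H40E9.FK
open Polynomial

variable {C : ∀ (G : Type) [Group G], Prop}

namespace Fam

variable {K : Type} [Field K] {V Ed : Type} {src rng : Ed → V} {A : Type} [Ring A]

/-- passing to the quotient by the ideal generated by `w` -/
theorem step (hC : ClosedE C) (F : Fam K src rng A) (hgen : Subring.closure F.gens = ⊤) {w : A}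
    {I : Ed → Prop} (h : F.Adapted w I) (hw : CornerGLs C w)
    (hB : GLs C (TwoSidedIdeal.span {w}).ringCon.Quotient) : GLs C A := by
  classical
  refine ext_ring hC (RingCon.mk' _) hB fun T hT hπ => ?_
  obtain ⟨S, hS1, hS2⟩ := local_units h hgen T hT (fun t ht => by
    rw [TwoSidedIdeal.mem_iff]
    exact (RingCon.eq _).1 ((hπ t ht).trans (map_zero (RingCon.mk' _)).symm))
  refine ⟨F.eF w S, eF_idem h S hS1, ?_, hS2⟩
  refine morita hC.base (ι := ↥S) (F.eF w S) w h.ww (fun l => F.x w l) (fun l => F.y w l)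
    (fun l => x_w h l) (fun l => w_y h l) ?_ hw
  rw [eF, ← Finset.sum_coe_sort S (fun l => F.x w l * F.y w l)]

theorem rho_comm (F : Fam K src rng A) {y : A} (hy : ∀ k, Commute (F.ι k) y) {w : A} (hyw : y * w = w * y) (f : K[X]) :
    eval₂RingHom' F.ι y hy f * w = w * eval₂RingHom' F.ι y hy f := by
  induction f using Polynomial.induction_on' with
  | add a b ha hb => rw [map_add, add_mul, mul_add, ha, hb]
  | monomial n a =>
    have h1 : eval₂RingHom' F.ι y hy (monomial n a) = F.ι a * y ^ n := eval₂_monomial _ _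
    have h2 : y ^ n * w = w * y ^ n := (Commute.pow_left (show Commute y w from hyw) n).eq
    rw [h1, mul_assoc, h2, ← mul_assoc, F.comm, mul_assoc w, F.comm]

variable [Fintype Ed]

set_option linter.unusedSectionVars false

open Classical in
/-- the difference between `p v` and the sum of the `s e * t e`, `src e = v` -/
noncomputable def q (F : Fam K src rng A) (v : V) : A :=
  F.p v - ∑ e ∈ Finset.univ.filter (fun e => src e = v), F.s e * F.t e

variable (F : Fam K src rng A)

theorem p_st (e : Ed) : F.p (src e) * (F.s e * F.t e) = F.s e * F.t e := by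
  rw [← mul_assoc, F.ps]

theorem st_p (e : Ed) : F.s e * F.t e * F.p (src e) = F.s e * F.t e := by
  rw [mul_assoc, F.tp]

theorem q_p (v : V) : F.q v * F.p v = F.q v := by
  classical
  rw [q, sub_mul, F.pp, Finset.sum_mul]
  congr 1
  refine Finset.sum_congr rfl fun e he => ?_
  rw [← (Finset.mem_filter.1 he).2, F.st_p]

theorem p_q (v : V) : F.p v * F.q v = F.q v := by
  classical
  rw [q, mul_sub, F.pp, Finset.mul_sum]
  congr 1
  refine Finset.sum_congr rfl fun e he => ?_
  rw [← (Finset.mem_filter.1 he).2, F.p_st]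

theorem q_s (v : V) (e : Ed) : F.q v * F.s e = 0 := by
  classical
  rw [q, sub_mul, Finset.sum_mul, sub_eq_zero]
  by_cases hv : src e = v
  · subst hv
    rw [F.ps, Finset.sum_eq_single e]
    · rw [mul_assoc, F.tse, F.sp]
    · intro f _ hfe
      rw [mul_assoc, F.tsf f e hfe, mul_zero]
    · intro he
      exact (he (Finset.mem_filter.2 ⟨Finset.mem_univ e, rfl⟩)).elim
  · rw [F.ps' v e (fun h => hv h.symm)]
    refine (Finset.sum_eq_zero fun f hf => ?_).symm
    have hfe : f ≠ e := fun h => hv (h ▸ (Finset.mem_filter.1 hf).2)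
    rw [mul_assoc, F.tsf f e hfe, mul_zero]

theorem t_q (v : V) (e : Ed) : F.t e * F.q v = 0 := by
  classical
  rw [q, mul_sub, Finset.mul_sum, sub_eq_zero]
  by_cases hv : src e = v
  · subst hv
    rw [F.tp, Finset.sum_eq_single e]
    · rw [← mul_assoc, F.tse, F.pt]
    · intro f _ hfe
      rw [← mul_assoc, F.tsf e f hfe.symm, zero_mul]
    · intro he
      exact (he (Finset.mem_filter.2 ⟨Finset.mem_univ e, rfl⟩)).elim
  · rw [F.tp' v e (fun h => hv h.symm)]
    refine (Finset.sum_eq_zero fun f hf => ?_).symm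
    have hfe : e ≠ f := fun h => hv (h ▸ (Finset.mem_filter.1 hf).2)
    rw [← mul_assoc, F.tsf e f hfe, zero_mul]

theorem q_q (v : V) : F.q v * F.q v = F.q v := by
  classical
  conv_lhs => rw [q]
  rw [sub_mul]
  have h1 : (F.p v - ∑ e ∈ Finset.univ.filter (fun e => src e = v), F.s e * F.t e) = F.q v := rfl
  rw [h1, F.p_q, Finset.sum_mul]
  rw [Finset.sum_eq_zero, sub_zero]
  intro e _
  rw [mul_assoc, F.t_q, mul_zero]

theorem adapted_q (v : V) : F.Adapted (F.q v) (fun _ => True) where
  ww := F.q_q v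
  pw u := by
    by_cases hu : u = v
    · subst hu; rw [F.p_q, F.q_p]
    · have h1 : F.p u * F.q v = 0 := by rw [← F.p_q, ← mul_assoc, F.pq u v hu, zero_mul]
      have h2 : F.q v * F.p u = 0 := by rw [← F.q_p, mul_assoc, F.pq v u (Ne.symm hu), mul_zero]
      rw [h1, h2]
  ws e _ := F.q_s v e
  tw e _ := F.t_q v e
  ws' e he := absurd trivial he
  sw' e he := absurd trivial he
  wt' e he := absurd trivial he
  tw' e he := absurd trivial he

theorem corner_q (hC : Closed C) (hK : GLs C K[X]) (hgen : Subring.closure F.gens = ⊤) (v : V) :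
    CornerGLs C (F.q v) := by
  have hy : ∀ k, Commute (F.ι k) (0 : A) := fun k => Commute.zero_right _
  refine corner_fin hC hK (F.q v) (F.q_q v) (eval₂RingHom' F.ι 0 hy)
    (fun f => F.rho_comm hy (by rw [zero_mul, mul_zero]) f) (ι := Unit) (fun _ => F.q v)
    (fun _ => F.q_q v) (fun _ => F.q_q v) ?_
  intro a h1 h2
  let U : AddSubgroup A :=
    { carrier := {b | ∃ k, b = F.ι k * F.q v}
      add_mem' := by
        rintro _ _ ⟨k, rfl⟩ ⟨l, rfl⟩
        exact ⟨k + l, by rw [map_add, add_mul]⟩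
      zero_mem' := ⟨0, by rw [map_zero, zero_mul]⟩
      neg_mem' := by
        rintro _ ⟨k, rfl⟩
        exact ⟨-k, by rw [map_neg, neg_mul]⟩ }
  have h3 : F.q v * (a * F.q v) ∈ U := by
    refine corner_mem (F.adapted_q v) hgen U ⟨1, by rw [map_one, one_mul]⟩ ?_ ?_ ?_ ?_ ?_ a
    · rintro _ ⟨k, rfl⟩
      rw [F.comm, ← mul_assoc, F.q_q]
    · rintro l _ ⟨k, rfl⟩
      exact ⟨l * k, by rw [map_mul, mul_assoc]⟩
    · rintro u _ ⟨k, rfl⟩
      by_cases hu : u = v
      · subst hu
        exact ⟨k, by rw [F.comm k, ← mul_assoc, F.p_q]⟩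
      · refine ⟨0, ?_⟩
        rw [map_zero, zero_mul, F.comm k, ← mul_assoc, ← F.p_q, ← mul_assoc (F.p u),
          F.pq u v hu, zero_mul, zero_mul]
    · intro e he
      exact absurd trivial he
    · intro e he
      exact absurd trivial he
  rw [h2, h1] at h3
  obtain ⟨k, hk⟩ := h3
  refine AddSubgroup.subset_closure ⟨((), Polynomial.C k), ?_⟩
  show F.q v * eval₂RingHom' F.ι 0 hy (Polynomial.C k) = a
  have h4 : eval₂RingHom' F.ι 0 hy (Polynomial.C k) = F.ι k := eval₂_C _ _
  rw [h4, ← F.comm, ← hk]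

end Fam

end Pool.Agent.H40E9.LP
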