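import Pool.Agent.H40E9.LP.Pid

/-!
# Corners which are finitely generated over `K[X]`
-/

set_option autoImplicit false

namespace Pool.Agent.H40E9.LP

open Pool.Agent.Y110.FJ
open Pool.Agent.Y462.SS (Closed)
open Pool.Agent.H40E9.FK
open Polynomial

variable {C : ∀ (G : Type) [Group G], Prop}

theorem corner_fin (hC : Closed C) {K : Type} [Field K] (hK : GLs C K[X]) {A : Type} [Ring A]
    (w : A) (hw : w * w = w) (ρ : K[X] →+* A) (hρ : ∀ f, ρ f * w = w * ρ f) {ι : Type} [Finite ι]
    (g : ι → A) (hg1 : ∀ j, w * g j = g j) (hg2 : ∀ j, g j * w = g j)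
    (hgen : ∀ a : A, w * a = a → a * w = a → a ∈ AddSubgroup.closure
      (Set.range fun p : ι × K[X] => g p.1 * ρ p.2)) : CornerGLs C w := by
  intro n
  have hcomm : ∀ x y : K[X], Commute (ρ x) (ρ y) := fun x y => by
    show ρ x * ρ y = ρ y * ρ x
    rw [← map_mul, ← map_mul, mul_comm]
  let mA : Module K[X] A := Module.compHom A (ρ.toOpposite hcomm : K[X] →+* Aᵐᵒᵖ)
  have hsm : ∀ (f : K[X]) (a : A), f • a = a * ρ f := fun f a => rfl
  let U : Submodule K[X] A :=
    { carrier := {a | w * a = a ∧ a * w = a}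
      add_mem' := fun {a b} ha hb => ⟨by rw [mul_add, ha.1, hb.1], by rw [add_mul, ha.2, hb.2]⟩
      zero_mem' := ⟨mul_zero _, zero_mul _⟩
      smul_mem' := fun f a ha => ⟨by rw [hsm, ← mul_assoc, ha.1],
        by rw [hsm, mul_assoc, hρ, ← mul_assoc, ha.2]⟩ }
  have hUf : Module.Finite K[X] U := by
    let g' : ι → U := fun j => ⟨g j, hg1 j, hg2 j⟩
    have hfin : (Set.range g').Finite := Set.finite_range _
    refine ⟨⟨hfin.toFinset, ?_⟩⟩
    rw [Set.Finite.coe_toFinset, eq_top_iff]
    rintro ⟨a, ha1, ha2⟩ _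
    have h1 := hgen a ha1 ha2
    have h2 : ∀ b ∈ AddSubgroup.closure (Set.range fun p : ι × K[X] => g p.1 * ρ p.2),
        b ∈ (Submodule.span K[X] (Set.range g')).map U.subtype := by
      intro b hb
      refine AddSubgroup.closure_induction (p := fun b _ =>
        b ∈ (Submodule.span K[X] (Set.range g')).map U.subtype) ?_ ?_ ?_ ?_ hb
      · rintro _ ⟨⟨j, f⟩, rfl⟩
        exact ⟨f • g' j, Submodule.smul_mem _ _ (Submodule.subset_span ⟨j, rfl⟩), rfl⟩
      · exact Submodule.zero_mem _
      · intro x y _ _ hx hy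
        exact Submodule.add_mem _ hx hy
      · intro x _ hx
        exact Submodule.neg_mem _ hx
    obtain ⟨b, hb1, hb2⟩ := h2 a h1
    have h3 : b = ⟨a, ha1, ha2⟩ := Subtype.ext hb2
    rw [← h3]
    exact hb1
  have hu : ∀ (u : cGL n w) (v : Fin n → U) (i : Fin n),
      (∑ j, ((u : (Matrix (Fin n) (Fin n) A)ˣ) : Matrix (Fin n) (Fin n) A) i j * (v j : A)) =
      (v i : A) + ∑ j, (((u : (Matrix (Fin n) (Fin n) A)ˣ) : Matrix (Fin n) (Fin n) A) - 1) i j *
        (v j : A) := by
    intro u v i
    have : ∀ j, (((u : (Matrix (Fin n) (Fin n) A)ˣ) : Matrix (Fin n) (Fin n) A) - 1) i j *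
        (v j : A) = ((u : (Matrix (Fin n) (Fin n) A)ˣ) : Matrix (Fin n) (Fin n) A) i j * (v j : A) -
        (if i = j then (v j : A) else 0) := by
      intro j
      rw [Matrix.sub_apply, sub_mul, Matrix.one_apply]
      split_ifs
      · rw [one_mul]
      · rw [zero_mul]
    simp_rw [this]
    rw [Finset.sum_sub_distrib, Finset.sum_ite_eq, if_pos (Finset.mem_univ i)]
    abel
  let F : cGL n w →* Module.End K[X] (Fin n → U) :=
    { toFun := fun u =>
        { toFun := fun v i => ⟨∑ j, ((u : (Matrix (Fin n) (Fin n) A)ˣ) :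
            Matrix (Fin n) (Fin n) A) i j * (v j : A), by
              constructor
              · rw [hu, mul_add, (v i).2.1, Finset.mul_sum]
                congr 1
                refine Finset.sum_congr rfl fun j _ => ?_
                rw [← mul_assoc]
                congr 1
                have h1 := congrFun (congrFun u.2.1 i) j
                rwa [Matrix.diagonal_mul] at h1
              · rw [Finset.sum_mul]
                refine Finset.sum_congr rfl fun j _ => ?_
                rw [mul_assoc, (v j).2.2]⟩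
          map_add' := fun v v' => by
            funext i
            apply Subtype.ext
            show ∑ j, ((u : (Matrix (Fin n) (Fin n) A)ˣ) : Matrix (Fin n) (Fin n) A) i j *
                ((v j : A) + (v' j : A)) =
              (∑ j, ((u : (Matrix (Fin n) (Fin n) A)ˣ) : Matrix (Fin n) (Fin n) A) i j * (v j : A)) +
              ∑ j, ((u : (Matrix (Fin n) (Fin n) A)ˣ) : Matrix (Fin n) (Fin n) A) i j * (v' j : A)
            rw [← Finset.sum_add_distrib]
            exact Finset.sum_congr rfl fun j _ => mul_add _ _ _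
          map_smul' := fun f v => by
            funext i
            apply Subtype.ext
            show ∑ j, ((u : (Matrix (Fin n) (Fin n) A)ˣ) : Matrix (Fin n) (Fin n) A) i j *
                ((v j : A) * ρ f) =
              (∑ j, ((u : (Matrix (Fin n) (Fin n) A)ˣ) : Matrix (Fin n) (Fin n) A) i j * (v j : A)) * ρ f
            rw [Finset.sum_mul]
            exact Finset.sum_congr rfl fun j _ => (mul_assoc _ _ _).symm }
      map_one' := by
        refine LinearMap.ext fun v => ?_
        funext i
        apply Subtype.ext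
        show ∑ j, (1 : Matrix (Fin n) (Fin n) A) i j * (v j : A) = v i
        rw [Finset.sum_eq_single i]
        · rw [Matrix.one_apply_eq, one_mul]
        · intro j _ hj
          rw [Matrix.one_apply_ne (Ne.symm hj), zero_mul]
        · intro h
          exact absurd (Finset.mem_univ i) h
      map_mul' := fun u u' => by
        refine LinearMap.ext fun v => ?_
        funext i
        apply Subtype.ext
        show ∑ j, (((u : (Matrix (Fin n) (Fin n) A)ˣ) : Matrix (Fin n) (Fin n) A) *
          ((u' : (Matrix (Fin n) (Fin n) A)ˣ) : Matrix (Fin n) (Fin n) A)) i j * (v j : A) =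
          ∑ k, ((u : (Matrix (Fin n) (Fin n) A)ˣ) : Matrix (Fin n) (Fin n) A) i k *
            ∑ j, ((u' : (Matrix (Fin n) (Fin n) A)ˣ) : Matrix (Fin n) (Fin n) A) k j * (v j : A)
        simp_rw [Matrix.mul_apply, Finset.sum_mul, Finset.mul_sum]
        rw [Finset.sum_comm]
        exact Finset.sum_congr rfl fun k _ => Finset.sum_congr rfl fun j _ => mul_assoc _ _ _ }
  have hF : ∀ u v i, ((F u v i : U) : A) =
      ∑ j, ((u : (Matrix (Fin n) (Fin n) A)ˣ) : Matrix (Fin n) (Fin n) A) i j * (v j : A) :=
    fun u v i => rfl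
  refine hC.of_injective _ _ ((LinearMap.GeneralLinearGroup.generalLinearEquiv K[X]
    (Fin n → U)).toMonoidHom.comp F.toHomUnits) ?_ (C_fin_mod hC hK (Fin n → U))
  rw [MonoidHom.coe_comp]
  refine (LinearMap.GeneralLinearGroup.generalLinearEquiv K[X] (Fin n → U)).injective.comp ?_
  rw [injective_iff_map_eq_one]
  intro u hu1
  have h1 : F u = 1 := congrArg Units.val hu1
  apply Subtype.ext
  apply Units.ext
  show ((u : (Matrix (Fin n) (Fin n) A)ˣ) : Matrix (Fin n) (Fin n) A) = 1
  rw [← sub_eq_zero]
  ext i k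
  let v : Fin n → U := Pi.single k ⟨w, hw, hw⟩
  have h2 := hF u v i
  rw [h1, hu] at h2
  have h3 : ∑ j, (((u : (Matrix (Fin n) (Fin n) A)ˣ) : Matrix (Fin n) (Fin n) A) - 1) i j *
      (v j : A) = (((u : (Matrix (Fin n) (Fin n) A)ˣ) : Matrix (Fin n) (Fin n) A) - 1) i k * w := by
    rw [Finset.sum_eq_single k]
    · show _ * ((Pi.single k (⟨w, hw, hw⟩ : U) : Fin n → U) k : A) = _
      rw [Pi.single_eq_same]
    · intro j _ hj
      show _ * ((Pi.single k (⟨w, hw, hw⟩ : U) : Fin n → U) j : A) = _
      rw [Pi.single_eq_of_ne hj]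
      exact mul_zero _
    · intro h
      exact absurd (Finset.mem_univ k) h
  rw [h3] at h2
  have h4 : (((u : (Matrix (Fin n) (Fin n) A)ˣ) : Matrix (Fin n) (Fin n) A) - 1) i k * w =
      (((u : (Matrix (Fin n) (Fin n) A)ˣ) : Matrix (Fin n) (Fin n) A) - 1) i k := by
    have h5 := congrFun (congrFun u.2.2 i) k
    rwa [Matrix.mul_diagonal] at h5
  rw [h4] at h2
  have h6 : (((1 : Module.End K[X] (Fin n → U)) v i : U) : A) = v i := rfl
  rw [h6] at h2
  exact (left_eq_add.1 h2)

end Pool.Agent.H40E9.LP
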