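import Pool.Agent.H40E9.LP.Cases

/-!
# Cycles without exits
-/

set_option autoImplicit false
set_option linter.unusedSectionVars false

namespace Pool.Agent.H40E9.LP

open Pool.Agent.Y110.FJ
open Pool.Agent.Y462.SS (Closed)
open Pool.Agent.H40E9.FK
open Polynomial

variable {C : ∀ (G : Type) [Group G], Prop}

namespace Fam

variable {K : Type} [Field K] {V Ed : Type} {src rng : Ed → V} {A : Type} [Ring A]

/-- `H` is a set of vertices with exactly one relevant outgoing edge `ε v`, and `v ↦ rng (ε v)` is a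
permutation of `H` -/
structure Cyc (F : Fam K src rng A) (H : Finset V) where
  ε : ↥H → Ed
  n : ↥H ≃ ↥H
  src_ε : ∀ v, src (ε v) = v
  rng_ε : ∀ v, rng (ε v) = n v
  st : ∀ v : ↥H, F.s (ε v) * F.t (ε v) = F.p v
  inact : ∀ e, src e ∈ H → (∀ v, ε v ≠ e) → F.s e = 0

variable {F : Fam K src rng A} {H : Finset V}

/-- the sum of the vertices -/
def wH (F : Fam K src rng A) (H : Finset V) : A := ∑ v : ↥H, F.p v

theorem p_wH (v : V) (hv : v ∈ H) : F.p v * F.wH H = F.p v := by
  classical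
  rw [wH, Finset.mul_sum, Finset.sum_eq_single (⟨v, hv⟩ : ↥H)]
  · exact F.pp v
  · intro u _ hu
    exact F.pq v u (fun h => hu (Subtype.ext h.symm))
  · intro h
    exact (h (Finset.mem_univ _)).elim

theorem wH_p (v : V) (hv : v ∈ H) : F.wH H * F.p v = F.p v := by
  classical
  rw [wH, Finset.sum_mul, Finset.sum_eq_single (⟨v, hv⟩ : ↥H)]
  · exact F.pp v
  · intro u _ hu
    exact F.pq u v (fun h => hu (Subtype.ext h))
  · intro h
    exact (h (Finset.mem_univ _)).elim

theorem p_wH' (v : V) (hv : v ∉ H) : F.p v * F.wH H = 0 := by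
  rw [wH, Finset.mul_sum]
  exact Finset.sum_eq_zero fun u _ => F.pq v u (fun h => hv (h ▸ u.2))

theorem wH_p' (v : V) (hv : v ∉ H) : F.wH H * F.p v = 0 := by
  rw [wH, Finset.sum_mul]
  exact Finset.sum_eq_zero fun u _ => F.pq u v (fun h => hv (h ▸ u.2))

theorem t_zero (e : Ed) (h : F.s e = 0) : F.t e = 0 := by
  rw [← F.pt e, ← F.tse e, h, mul_zero, zero_mul]

theorem wH_wH : F.wH H * F.wH H = F.wH H := by
  conv_lhs => rw [wH]
  rw [Finset.sum_mul]
  conv_rhs => rw [wH]
  refine Finset.sum_congr rfl fun v _ => ?_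
  exact p_wH v.1 v.2

/-- the edge is one of the cycle edges or irrelevant -/
theorem Cyc.cases (c : F.Cyc H) (e : Ed) (he : src e ∈ H) :
    (∃ v, c.ε v = e) ∨ (F.s e = 0 ∧ F.t e = 0) := by
  by_cases h : ∃ v, c.ε v = e
  · exact Or.inl h
  · right
    push Not at h
    exact ⟨c.inact e he h, t_zero e (c.inact e he h)⟩

theorem Cyc.adapted (c : F.Cyc H) : F.Adapted (F.wH H) (fun e => src e ∉ H) where
  ww := wH_wH
  pw u := by
    by_cases hu : u ∈ H
    · rw [p_wH u hu, wH_p u hu]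
    · rw [p_wH' u hu, wH_p' u hu]
  ws e he := by rw [← F.ps, ← mul_assoc, wH_p' _ he, zero_mul]
  tw e he := by rw [← F.tp, mul_assoc, p_wH' _ he, mul_zero]
  ws' e he := by
    have he' : src e ∈ H := not_not.1 he
    rw [← F.ps, ← mul_assoc, wH_p _ he']
  sw' e he := by
    rcases c.cases e (not_not.1 he) with ⟨v, rfl⟩ | ⟨h1, -⟩
    · rw [← F.sp, mul_assoc, p_wH]
      rw [c.rng_ε]; exact (c.n v).2
    · rw [h1, zero_mul]
  wt' e he := by
    rcases c.cases e (not_not.1 he) with ⟨v, rfl⟩ | ⟨-, h1⟩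
    · rw [← F.pt, ← mul_assoc, wH_p]
      rw [c.rng_ε]; exact (c.n v).2
    · rw [h1, mul_zero]
  tw' e he := by
    have he' : src e ∈ H := not_not.1 he
    rw [← F.tp, mul_assoc, p_wH _ he']

/-- the shift and its inverse -/
def Cyc.S (c : F.Cyc H) : A := ∑ v : ↥H, F.s (c.ε v)

/-- the shift and its inverse -/
def Cyc.T (c : F.Cyc H) : A := ∑ v : ↥H, F.t (c.ε v)

theorem Cyc.p_s (c : F.Cyc H) (u : V) (v : ↥H) (h : u ≠ v) : F.p u * F.s (c.ε v) = 0 :=
  F.ps' u _ (by rw [c.src_ε]; exact h)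

theorem Cyc.p_s' (c : F.Cyc H) (v : ↥H) : F.p v * F.s (c.ε v) = F.s (c.ε v) := by
  have := F.ps (c.ε v)
  rwa [c.src_ε] at this

theorem Cyc.s_p (c : F.Cyc H) (u : V) (v : ↥H) (h : u ≠ c.n v) : F.s (c.ε v) * F.p u = 0 :=
  F.sp' u _ (by rw [c.rng_ε]; exact h)

theorem Cyc.s_p' (c : F.Cyc H) (v : ↥H) : F.s (c.ε v) * F.p (c.n v) = F.s (c.ε v) := by
  have := F.sp (c.ε v)
  rwa [c.rng_ε] at this

theorem Cyc.p_t (c : F.Cyc H) (u : V) (v : ↥H) (h : u ≠ c.n v) : F.p u * F.t (c.ε v) = 0 :=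
  F.pt' u _ (by rw [c.rng_ε]; exact h)

theorem Cyc.p_t' (c : F.Cyc H) (v : ↥H) : F.p (c.n v) * F.t (c.ε v) = F.t (c.ε v) := by
  have := F.pt (c.ε v)
  rwa [c.rng_ε] at this

theorem Cyc.t_p (c : F.Cyc H) (u : V) (v : ↥H) (h : u ≠ v) : F.t (c.ε v) * F.p u = 0 :=
  F.tp' u _ (by rw [c.src_ε]; exact h)

theorem Cyc.t_p' (c : F.Cyc H) (v : ↥H) : F.t (c.ε v) * F.p v = F.t (c.ε v) := by
  have := F.tp (c.ε v)
  rwa [c.src_ε] at this

theorem Cyc.t_s (c : F.Cyc H) (u v : ↥H) (h : u ≠ v) : F.t (c.ε u) * F.s (c.ε v) = 0 := by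
  rw [← c.t_p' u, mul_assoc, c.p_s _ _ (fun h1 => h (Subtype.ext h1)), mul_zero]

theorem Cyc.t_s' (c : F.Cyc H) (v : ↥H) : F.t (c.ε v) * F.s (c.ε v) = F.p (c.n v) := by
  rw [F.tse, c.rng_ε]

theorem Cyc.s_t (c : F.Cyc H) (u v : ↥H) (h : u ≠ v) : F.s (c.ε u) * F.t (c.ε v) = 0 := by
  rw [← c.s_p' u, mul_assoc, c.p_t _ _ (fun h1 => h (c.n.injective (Subtype.ext h1))), mul_zero]

theorem Cyc.s_s (c : F.Cyc H) (u v : ↥H) (h : v ≠ c.n u) : F.s (c.ε u) * F.s (c.ε v) = 0 := by
  rw [← c.s_p' u, mul_assoc, c.p_s _ _ (fun h1 => h (Subtype.ext h1.symm)), mul_zero]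

/-- the element `y = S + T` -/
def Cyc.y (c : F.Cyc H) : A := c.S + c.T

theorem Cyc.s_s' (c : F.Cyc H) (u : ↥H) :
    F.s (c.ε u) * F.s (c.ε (c.n u)) = F.s (c.ε u) * c.y - F.p u := by
  classical
  have h1 : F.s (c.ε u) * c.S = F.s (c.ε u) * F.s (c.ε (c.n u)) := by
    rw [Cyc.S, Finset.mul_sum, Finset.sum_eq_single (c.n u)]
    · intro v _ hv
      exact c.s_s u v hv
    · intro h
      exact (h (Finset.mem_univ _)).elim
  have h2 : F.s (c.ε u) * c.T = F.p u := by
    rw [Cyc.T, Finset.mul_sum, Finset.sum_eq_single u]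
    · exact c.st u
    · intro v _ hv
      exact c.s_t u v hv.symm
    · intro h
      exact (h (Finset.mem_univ _)).elim
  rw [Cyc.y, mul_add, h1, h2, add_sub_cancel_right]

theorem Cyc.t_eq (c : F.Cyc H) (u : ↥H) :
    F.t (c.ε u) = F.p (c.n u) * c.y - F.s (c.ε (c.n u)) := by
  classical
  have h1 : F.p (c.n u) * c.S = F.s (c.ε (c.n u)) := by
    rw [Cyc.S, Finset.mul_sum, Finset.sum_eq_single (c.n u)]
    · exact c.p_s' _
    · intro v _ hv
      exact c.p_s _ v (fun h => hv (Subtype.ext h.symm))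
    · intro h
      exact (h (Finset.mem_univ _)).elim
  have h2 : F.p (c.n u) * c.T = F.t (c.ε u) := by
    rw [Cyc.T, Finset.mul_sum, Finset.sum_eq_single u]
    · exact c.p_t' _
    · intro v _ hv
      exact c.p_t _ v (fun h => hv (c.n.injective (Subtype.ext h.symm)))
    · intro h
      exact (h (Finset.mem_univ _)).elim
  rw [Cyc.y, mul_add, h1, h2, add_sub_cancel_left]

theorem Cyc.y_w (c : F.Cyc H) : c.y * F.wH H = c.y := by
  rw [Cyc.y, add_mul, Cyc.S, Cyc.T, Finset.sum_mul, Finset.sum_mul]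
  congr 1
  · refine Finset.sum_congr rfl fun v _ => ?_
    exact c.adapted.sw' _ (by rw [c.src_ε]; exact not_not.2 v.2)
  · refine Finset.sum_congr rfl fun v _ => ?_
    exact c.adapted.tw' _ (by rw [c.src_ε]; exact not_not.2 v.2)

theorem Cyc.w_y (c : F.Cyc H) : F.wH H * c.y = c.y := by
  rw [Cyc.y, mul_add, Cyc.S, Cyc.T, Finset.mul_sum, Finset.mul_sum]
  congr 1
  · refine Finset.sum_congr rfl fun v _ => ?_
    exact c.adapted.ws' _ (by rw [c.src_ε]; exact not_not.2 v.2)
  · refine Finset.sum_congr rfl fun v _ => ?_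
    exact c.adapted.wt' _ (by rw [c.src_ε]; exact not_not.2 v.2)

theorem Cyc.corner (hC : Closed C) (hK : GLs C K[X]) (hgen : Subring.closure F.gens = ⊤)
    (c : F.Cyc H) : CornerGLs C (F.wH H) := by
  classical
  have hy : ∀ k, Commute (F.ι k) c.y := fun k => F.comm k _
  obtain ⟨ρ, hρ⟩ : ∃ ρ : K[X] →+* A, ρ = eval₂RingHom' F.ι c.y hy := ⟨_, rfl⟩
  have hρw : ∀ f, ρ f * F.wH H = F.wH H * ρ f := fun f => by
    rw [hρ]
    exact F.rho_comm hy (by rw [c.y_w, c.w_y]) f
  have hρC : ∀ k, ρ (Polynomial.C k) = F.ι k := fun k => by rw [hρ]; exact eval₂_C _ _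
  have hρX : ρ X = c.y := by rw [hρ]; exact eval₂_X _ _
  have hXf : ∀ f, c.y * ρ f = ρ (X * f) := fun f => by rw [map_mul, hρX]
  let g : ↥H ⊕ ↥H → A := Sum.elim (fun v => F.p v) (fun v => F.s (c.ε v))
  have hgw : ∀ j, F.wH H * g j = g j := by
    rintro (v | v)
    · exact wH_p v.1 v.2
    · exact c.adapted.ws' _ (by rw [c.src_ε]; exact not_not.2 v.2)
  have hgw' : ∀ j, g j * F.wH H = g j := by
    rintro (v | v)
    · exact p_wH v.1 v.2
    · exact c.adapted.sw' _ (by rw [c.src_ε]; exact not_not.2 v.2)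
  refine corner_fin hC hK (F.wH H) wH_wH ρ hρw g hgw hgw' ?_
  intro a h1 h2
  let U : AddSubgroup A := AddSubgroup.closure
    (Set.range fun p : (↥H ⊕ ↥H) × K[X] => g p.1 * ρ p.2)
  have hU1 : ∀ (v : ↥H) f, F.p v * ρ f ∈ U := fun v f =>
    AddSubgroup.subset_closure ⟨(Sum.inl v, f), rfl⟩
  have hU2 : ∀ (v : ↥H) f, F.s (c.ε v) * ρ f ∈ U := fun v f =>
    AddSubgroup.subset_closure ⟨(Sum.inr v, f), rfl⟩
  have hind : ∀ a : A, (∀ (v : ↥H) f, a * (F.p v * ρ f) ∈ U) →
      (∀ (v : ↥H) f, a * (F.s (c.ε v) * ρ f) ∈ U) → ∀ u ∈ U, a * u ∈ U := by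
    intro a ha1 ha2 u hu
    refine AddSubgroup.closure_induction (p := fun u _ => a * u ∈ U) ?_ ?_ ?_ ?_ hu
    · rintro _ ⟨⟨v | v, f⟩, rfl⟩
      · exact ha1 v f
      · exact ha2 v f
    · rw [mul_zero]; exact AddSubgroup.zero_mem _
    · intro x y _ _ hx hy
      rw [mul_add]; exact AddSubgroup.add_mem _ hx hy
    · intro x _ hx
      rw [mul_neg]; exact AddSubgroup.neg_mem _ hx
  have h3 : F.wH H * (a * F.wH H) ∈ U := by
    refine corner_mem c.adapted hgen U ?_ ?_ ?_ ?_ ?_ ?_ a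
    · rw [wH]
      refine AddSubgroup.sum_mem _ fun v _ => ?_
      have := hU1 v 1
      rwa [map_one, mul_one] at this
    · intro u hu
      refine AddSubgroup.closure_induction (p := fun u _ => F.wH H * u = u) ?_ ?_ ?_ ?_ hu
      · rintro _ ⟨⟨j, f⟩, rfl⟩
        show F.wH H * (g j * ρ f) = g j * ρ f
        rw [← mul_assoc, hgw]
      · exact mul_zero _
      · intro x y _ _ hx hy
        rw [mul_add, hx, hy]
      · intro x _ hx
        rw [mul_neg, hx]
    · intro k
      refine hind _ ?_ ?_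
      · intro v f
        rw [F.comm, mul_assoc, ← hρC, ← map_mul]
        exact hU1 v _
      · intro v f
        rw [F.comm, mul_assoc, ← hρC, ← map_mul]
        exact hU2 v _
    · intro u
      refine hind _ ?_ ?_
      · intro v f
        rw [← mul_assoc]
        by_cases huv : u = v
        · subst huv
          rw [F.pp]
          exact hU1 v f
        · rw [F.pq u v huv, zero_mul]
          exact AddSubgroup.zero_mem _
      · intro v f
        rw [← mul_assoc]
        by_cases huv : u = v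
        · subst huv
          rw [c.p_s']
          exact hU2 v f
        · rw [c.p_s u v huv, zero_mul]
          exact AddSubgroup.zero_mem _
    · intro e he
      rcases c.cases e (not_not.1 he) with ⟨u, rfl⟩ | ⟨h4, -⟩
      · refine hind _ ?_ ?_
        · intro v f
          rw [← mul_assoc]
          by_cases hv : v = c.n u
          · subst hv
            rw [c.s_p']
            exact hU2 u f
          · rw [c.s_p _ u (fun h => hv (Subtype.ext h)), zero_mul]
            exact AddSubgroup.zero_mem _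
        · intro v f
          rw [← mul_assoc]
          by_cases hv : v = c.n u
          · subst hv
            rw [c.s_s', sub_mul, mul_assoc, hXf]
            exact AddSubgroup.sub_mem _ (hU2 u _) (hU1 u f)
          · rw [c.s_s u v hv, zero_mul]
            exact AddSubgroup.zero_mem _
      · intro u _
        rw [h4, zero_mul]
        exact AddSubgroup.zero_mem _
    · intro e he
      rcases c.cases e (not_not.1 he) with ⟨u, rfl⟩ | ⟨-, h4⟩
      · refine hind _ ?_ ?_
        · intro v f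
          rw [← mul_assoc]
          by_cases hv : v = u
          · subst hv
            rw [c.t_p', c.t_eq, sub_mul, mul_assoc, hXf]
            exact AddSubgroup.sub_mem _ (hU1 _ _) (hU2 _ f)
          · rw [c.t_p _ u (fun h => hv (Subtype.ext h)), zero_mul]
            exact AddSubgroup.zero_mem _
        · intro v f
          rw [← mul_assoc]
          by_cases hv : u = v
          · subst hv
            rw [c.t_s']
            exact hU1 _ f
          · rw [c.t_s u v hv, zero_mul]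
            exact AddSubgroup.zero_mem _
      · intro u _
        rw [h4, zero_mul]
        exact AddSubgroup.zero_mem _
  rw [h2, h1] at h3
  exact h3

end Fam

end Pool.Agent.H40E9.LP
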