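import Pool.Agent.H40E9.LP.Corner

/-!
# Cuntz–Krieger families and ideals with local units
-/

set_option autoImplicit false

namespace Pool.Agent.H40E9.LP

open Pool.Agent.Y110.FJ
open Pool.Agent.Y462.SS (Closed)
open Pool.Agent.H40E9.FK

/-- A representation of the directed graph with the edges `e` from `src e` to `rng e` in the ring `A`
over the field `K`: `K` acts by central elements, `p v` are orthogonal idempotents, and the elements
`s e`, `t e` (written `e` and `e^*` in Leavitt path algebras) satisfy `e = src(e) e rng(e)`,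
`e^* e = rng(e)` and `e^* f = 0` for different edges `e`, `f`. -/
structure Fam (K : Type) [Field K] {V Ed : Type} (src rng : Ed → V) (A : Type) [Ring A] where
  ι : K →+* A
  p : V → A
  s : Ed → A
  t : Ed → A
  comm : ∀ k a, ι k * a = a * ι k
  pp : ∀ v, p v * p v = p v
  pq : ∀ v w, v ≠ w → p v * p w = 0
  ps : ∀ e, p (src e) * s e = s e
  sp : ∀ e, s e * p (rng e) = s e
  pt : ∀ e, p (rng e) * t e = t e
  tp : ∀ e, t e * p (src e) = t e
  tse : ∀ e, t e * s e = p (rng e)
  tsf : ∀ e f, e ≠ f → t e * s f = 0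

namespace Fam

variable {K : Type} [Field K] {V Ed : Type} {src rng : Ed → V} {A : Type} [Ring A]

/-- the generators -/
def gens (F : Fam K src rng A) : Set A :=
  Set.range F.ι ∪ Set.range F.p ∪ Set.range F.s ∪ Set.range F.t

/-- image under a ring homomorphism -/
def map (F : Fam K src rng A) {B : Type} [Ring B] (f : A →+* B) (hf : Function.Surjective f) :
    Fam K src rng B where
  ι := f.comp F.ι
  p v := f (F.p v)
  s e := f (F.s e)
  t e := f (F.t e)
  comm k b := by
    obtain ⟨a, rfl⟩ := hf b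
    rw [RingHom.comp_apply, ← map_mul, F.comm, map_mul]
  pp v := by rw [← map_mul, F.pp]
  pq v w h := by rw [← map_mul, F.pq v w h, map_zero]
  ps e := by rw [← map_mul, F.ps]
  sp e := by rw [← map_mul, F.sp]
  pt e := by rw [← map_mul, F.pt]
  tp e := by rw [← map_mul, F.tp]
  tse e := by rw [← map_mul, F.tse]
  tsf e e' h := by rw [← map_mul, F.tsf e e' h, map_zero]

/-- the opposite family -/
def op (F : Fam K src rng A) : Fam K src rng Aᵐᵒᵖ where
  ι := F.ι.toOpposite fun x y => F.comm x _
  p v := MulOpposite.op (F.p v)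
  s e := MulOpposite.op (F.t e)
  t e := MulOpposite.op (F.s e)
  comm k a := by
    obtain ⟨a⟩ := a
    exact congrArg MulOpposite.op (F.comm k a).symm
  pp v := congrArg MulOpposite.op (F.pp v)
  pq v w h := congrArg MulOpposite.op (F.pq w v h.symm)
  ps e := congrArg MulOpposite.op (F.tp e)
  sp e := congrArg MulOpposite.op (F.pt e)
  pt e := congrArg MulOpposite.op (F.sp e)
  tp e := congrArg MulOpposite.op (F.ps e)
  tse e := congrArg MulOpposite.op (F.tse e)
  tsf e f h := congrArg MulOpposite.op (F.tsf f e h.symm)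

variable (F : Fam K src rng A)

theorem ps' (v : V) (e : Ed) (h : v ≠ src e) : F.p v * F.s e = 0 := by
  rw [← F.ps, ← mul_assoc, F.pq _ _ h, zero_mul]

theorem sp' (v : V) (e : Ed) (h : v ≠ rng e) : F.s e * F.p v = 0 := by
  rw [← F.sp, mul_assoc, F.pq _ _ h.symm, mul_zero]

theorem pt' (v : V) (e : Ed) (h : v ≠ rng e) : F.p v * F.t e = 0 := by
  rw [← F.pt, ← mul_assoc, F.pq _ _ h, zero_mul]

theorem tp' (v : V) (e : Ed) (h : v ≠ src e) : F.t e * F.p v = 0 := by
  rw [← F.tp, mul_assoc, F.pq _ _ h.symm, mul_zero]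

/-- the left factors -/
def x (w : A) : List Ed → A
  | [] => w
  | e :: l => F.s e * x w l

/-- the right factors -/
def y (w : A) : List Ed → A
  | [] => w
  | e :: l => y w l * F.t e

/-- `w` is an idempotent adapted to the family; the edges in `I` are orthogonal to it -/
structure Adapted (w : A) (I : Ed → Prop) : Prop where
  ww : w * w = w
  pw : ∀ v, F.p v * w = w * F.p v
  ws : ∀ e, I e → w * F.s e = 0
  tw : ∀ e, I e → F.t e * w = 0
  ws' : ∀ e, ¬ I e → w * F.s e = F.s e
  sw' : ∀ e, ¬ I e → F.s e * w = F.s e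
  wt' : ∀ e, ¬ I e → w * F.t e = F.t e
  tw' : ∀ e, ¬ I e → F.t e * w = F.t e

variable {F} {w : A} {I : Ed → Prop}

theorem Adapted.op (h : F.Adapted w I) : F.op.Adapted (MulOpposite.op w) I where
  ww := congrArg MulOpposite.op h.ww
  pw v := congrArg MulOpposite.op (h.pw v).symm
  ws e he := congrArg MulOpposite.op (h.tw e he)
  tw e he := congrArg MulOpposite.op (h.ws e he)
  ws' e he := congrArg MulOpposite.op (h.tw' e he)
  sw' e he := congrArg MulOpposite.op (h.wt' e he)
  wt' e he := congrArg MulOpposite.op (h.sw' e he)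
  tw' e he := congrArg MulOpposite.op (h.ws' e he)

theorem x_op (w : A) (l : List Ed) : F.op.x (MulOpposite.op w) l = MulOpposite.op (F.y w l) := by
  induction l with
  | nil => rfl
  | cons e l ih =>
    show MulOpposite.op (F.t e) * F.op.x (MulOpposite.op w) l = _
    rw [ih]; rfl

theorem y_op (w : A) (l : List Ed) : F.op.y (MulOpposite.op w) l = MulOpposite.op (F.x w l) := by
  induction l with
  | nil => rfl
  | cons e l ih =>
    show F.op.y (MulOpposite.op w) l * MulOpposite.op (F.s e) = _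
    rw [ih]; rfl

theorem x_w (h : F.Adapted w I) (l : List Ed) : F.x w l * w = F.x w l := by
  induction l with
  | nil => exact h.ww
  | cons e l ih => show F.s e * F.x w l * w = F.s e * F.x w l; rw [mul_assoc, ih]

theorem w_y (h : F.Adapted w I) (l : List Ed) : w * F.y w l = F.y w l := by
  induction l with
  | nil => exact h.ww
  | cons e l ih => show w * (F.y w l * F.t e) = F.y w l * F.t e; rw [← mul_assoc, ih]

/-- the paths with edges orthogonal to `w` -/
def Pth (I : Ed → Prop) : Set (List Ed) := {l | ∀ e ∈ l, I e}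

theorem nil_mem : ([] : List Ed) ∈ Pth I := by
  intro e he
  simp at he

theorem cons_mem {e : Ed} {l : List Ed} : e :: l ∈ Pth I ↔ I e ∧ l ∈ Pth I := by
  constructor
  · intro h
    exact ⟨h e (by simp), fun f hf => h f (by simp [hf])⟩
  · rintro ⟨h1, h2⟩ f hf
    rcases List.mem_cons.1 hf with rfl | hf
    · exact h1
    · exact h2 f hf

theorem orth (h : F.Adapted w I) : ∀ (l m : List Ed), l ∈ Pth I → m ∈ Pth I → l ≠ m → ∀ v,
    F.y w l * F.p v * F.x w m = 0
  | [], [], _, _, hne, _ => absurd rfl hne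
  | [], f :: m, _, hm, _, v => by
    show w * F.p v * (F.s f * F.x w m) = 0
    rw [← h.pw, mul_assoc, ← mul_assoc w, h.ws f (cons_mem.1 hm).1, zero_mul, mul_zero]
  | e :: l, [], hl, _, _, v => by
    show F.y w l * F.t e * F.p v * w = 0
    rw [mul_assoc _ (F.p v) w, h.pw, ← mul_assoc, mul_assoc _ (F.t e) w,
      h.tw e (cons_mem.1 hl).1, mul_zero, zero_mul]
  | e :: l, f :: m, hl, hm, hne, v => by
    show F.y w l * F.t e * F.p v * (F.s f * F.x w m) = 0
    by_cases hv : v = src f
    · subst hv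
      have h1 : F.y w l * F.t e * F.p (src f) * (F.s f * F.x w m) =
          F.y w l * F.t e * (F.p (src f) * F.s f) * F.x w m := by noncomm_ring
      rw [h1, F.ps, mul_assoc (F.y w l)]
      by_cases hef : e = f
      · subst hef
        rw [F.tse]
        exact orth h l m (cons_mem.1 hl).2 (cons_mem.1 hm).2 (fun h2 => hne (by rw [h2])) _
      · rw [F.tsf e f hef, mul_zero, zero_mul]
    · have h1 : F.y w l * F.t e * F.p v * (F.s f * F.x w m) =
          F.y w l * F.t e * (F.p v * F.s f) * F.x w m := by noncomm_ring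
      rw [h1, F.ps' v f hv, mul_zero, zero_mul]

theorem orth' (h : F.Adapted w I) : ∀ (l m : List Ed), l ∈ Pth I → m ∈ Pth I → l ≠ m →
    F.y w l * F.x w m = 0
  | [], [], _, _, hne => absurd rfl hne
  | [], f :: m, _, hm, _ => by
    show w * (F.s f * F.x w m) = 0
    rw [← mul_assoc w, h.ws f (cons_mem.1 hm).1, zero_mul]
  | e :: l, [], hl, _, _ => by
    show F.y w l * F.t e * w = 0
    rw [mul_assoc _ (F.t e) w, h.tw e (cons_mem.1 hl).1, mul_zero]
  | e :: l, f :: m, hl, hm, hne => by
    show F.y w l * F.t e * (F.s f * F.x w m) = 0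
    have h1 : F.y w l * F.t e * (F.s f * F.x w m) =
        F.y w l * (F.t e * F.s f) * F.x w m := by noncomm_ring
    rw [h1]
    by_cases hef : e = f
    · subst hef
      rw [F.tse]
      exact orth h l m (cons_mem.1 hl).2 (cons_mem.1 hm).2 (fun h2 => hne (by rw [h2])) _
    · rw [F.tsf e f hef, mul_zero, zero_mul]

theorem idem (h : F.Adapted w I) : ∀ (l : List Ed) (v : V),
    F.p v * F.x w l * F.y w l * F.p v * F.x w l = F.p v * F.x w l
  | [], v => by
    show F.p v * w * w * F.p v * w = F.p v * w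
    have e1 : F.p v * w * w * F.p v * w = F.p v * (w * w) * F.p v * w := by noncomm_ring
    have e2 : F.p v * w * F.p v * w = F.p v * (w * F.p v) * w := by noncomm_ring
    have e3 : F.p v * (F.p v * w) * w = F.p v * F.p v * (w * w) := by noncomm_ring
    rw [e1, h.ww, e2, ← h.pw, e3, F.pp, h.ww]
  | e :: l, v => by
    show F.p v * (F.s e * F.x w l) * (F.y w l * F.t e) * F.p v * (F.s e * F.x w l) =
      F.p v * (F.s e * F.x w l)
    by_cases hv : v = src e
    · subst hv
      have h1 : F.p (src e) * (F.s e * F.x w l) * (F.y w l * F.t e) * F.p (src e) *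
          (F.s e * F.x w l) = (F.p (src e) * F.s e) * F.x w l * F.y w l *
            (F.t e * (F.p (src e) * F.s e)) * F.x w l := by noncomm_ring
      rw [h1, ← mul_assoc (F.p (src e)) (F.s e), F.ps, F.tse]
      have h2 : F.s e * F.x w l * F.y w l * F.p (rng e) * F.x w l =
          F.s e * (F.p (rng e) * F.x w l * F.y w l * F.p (rng e) * F.x w l) := by
        conv_lhs => rw [← F.sp e]
        noncomm_ring
      rw [h2, idem h l (rng e), ← mul_assoc, F.sp]
    · rw [← mul_assoc (F.p v) (F.s e), F.ps' v e hv]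
      simp

theorem idem' (h : F.Adapted w I) (l : List Ed) : F.x w l * F.y w l * F.x w l = F.x w l := by
  cases l with
  | nil =>
    show w * w * w = w
    rw [h.ww, h.ww]
  | cons e l =>
    have h1 := idem h (e :: l) (src e)
    have h2 : F.p (src e) * F.x w (e :: l) = F.x w (e :: l) := by
      show F.p (src e) * (F.s e * F.x w l) = F.s e * F.x w l
      rw [← mul_assoc, F.ps]
    have h3 : F.y w (e :: l) * F.p (src e) = F.y w (e :: l) := by
      show F.y w l * F.t e * F.p (src e) = F.y w l * F.t e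
      rw [mul_assoc, F.tp]
    rw [h2, mul_assoc (F.x w (e :: l)) (F.y w (e :: l)) (F.p (src e)), h3] at h1
    exact h1

/-- the local units -/
def eF (F : Fam K src rng A) (w : A) (S : Finset (List Ed)) : A := ∑ l ∈ S, F.x w l * F.y w l

theorem eF_x (h : F.Adapted w I) (S : Finset (List Ed)) (hS : ∀ l ∈ S, l ∈ Pth I) (l : List Ed)
    (hl : l ∈ S) : F.eF w S * F.x w l = F.x w l := by
  classical
  rw [eF, Finset.sum_mul, Finset.sum_eq_single l]
  · exact idem' h l
  · intro m hm hne
    rw [mul_assoc, orth' h m l (hS m hm) (hS l hl) hne, mul_zero]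
  · intro hl'
    exact absurd hl hl'

theorem eF_idem (h : F.Adapted w I) (S : Finset (List Ed)) (hS : ∀ l ∈ S, l ∈ Pth I) :
    F.eF w S * F.eF w S = F.eF w S := by
  have h1 : F.eF w S * F.eF w S = ∑ l ∈ S, F.eF w S * (F.x w l * F.y w l) := by
    rw [← Finset.mul_sum]; rfl
  rw [h1]
  refine Finset.sum_congr rfl fun l hl => ?_
  rw [← mul_assoc, eF_x h S hS l hl]

/-- the right ideal generated by the left factors -/
def RI (F : Fam K src rng A) (w : A) (I : Ed → Prop) : AddSubgroup A :=
  AddSubgroup.closure {a | ∃ l ∈ Pth I, ∃ b, a = F.x w l * b}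

theorem RI_mul (h : F.Adapted w I) (hgen : Subring.closure F.gens = ⊤) (a : A) :
    ∀ m ∈ F.RI w I, a * m ∈ F.RI w I := by
  have hx : ∀ l ∈ Pth I, ∀ b, F.x w l * b ∈ F.RI w I := fun l hl b =>
    AddSubgroup.subset_closure ⟨l, hl, b, rfl⟩
  have hp : ∀ v, ∀ l ∈ Pth I, ∀ b, F.p v * (F.x w l * b) ∈ F.RI w I := by
    intro v l hl b
    cases l with
    | nil =>
      have : F.p v * (F.x w [] * b) = F.x w [] * (F.p v * b) := by
        show F.p v * (w * b) = w * (F.p v * b)
        rw [← mul_assoc, h.pw, mul_assoc]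
      rw [this]
      exact hx _ hl _
    | cons e l =>
      by_cases hv : v = src e
      · subst hv
        have : F.p (src e) * (F.x w (e :: l) * b) = F.x w (e :: l) * b := by
          show F.p (src e) * (F.s e * F.x w l * b) = F.s e * F.x w l * b
          rw [← mul_assoc, ← mul_assoc, F.ps]
        rw [this]
        exact hx _ hl _
      · have : F.p v * (F.x w (e :: l) * b) = 0 := by
          show F.p v * (F.s e * F.x w l * b) = 0
          rw [← mul_assoc, ← mul_assoc, F.ps' v e hv, zero_mul, zero_mul]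
        rw [this]
        exact AddSubgroup.zero_mem _
  have key : ∀ g ∈ F.gens, ∀ l ∈ Pth I, ∀ b, g * (F.x w l * b) ∈ F.RI w I := by
    rintro g (((⟨k, rfl⟩ | ⟨v, rfl⟩) | ⟨e, rfl⟩) | ⟨e, rfl⟩) l hl b
    · rw [← mul_assoc, F.comm, mul_assoc]
      exact hx l hl _
    · exact hp v l hl b
    · by_cases he : I e
      · have : F.s e * (F.x w l * b) = F.x w (e :: l) * b := by
          show _ = F.s e * F.x w l * b
          rw [mul_assoc]
        rw [this]
        exact hx _ (cons_mem.2 ⟨he, hl⟩) _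
      · have : F.s e * (F.x w l * b) = F.x w [] * (F.s e * (F.x w l * b)) := by
          show _ = w * (F.s e * (F.x w l * b))
          rw [← mul_assoc w, h.ws' e he]
        rw [this]
        exact hx _ nil_mem _
    · by_cases he : I e
      · cases l with
        | nil =>
          have : F.t e * (F.x w [] * b) = 0 := by
            show F.t e * (w * b) = 0
            rw [← mul_assoc, h.tw e he, zero_mul]
          rw [this]
          exact AddSubgroup.zero_mem _
        | cons f l =>
          have h1 : F.t e * (F.x w (f :: l) * b) = F.t e * F.s f * (F.x w l * b) := by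
            show F.t e * (F.s f * F.x w l * b) = F.t e * F.s f * (F.x w l * b)
            noncomm_ring
          rw [h1]
          by_cases hef : e = f
          · subst hef
            rw [F.tse]
            exact hp _ l (cons_mem.1 hl).2 b
          · rw [F.tsf e f hef, zero_mul]
            exact AddSubgroup.zero_mem _
      · have : F.t e * (F.x w l * b) = F.x w [] * (F.t e * (F.x w l * b)) := by
          show _ = w * (F.t e * (F.x w l * b))
          rw [← mul_assoc w, h.wt' e he]
        rw [this]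
        exact hx _ nil_mem _
  have key2 : ∀ g ∈ F.gens, ∀ m ∈ F.RI w I, g * m ∈ F.RI w I := by
    intro g hg m hm
    refine AddSubgroup.closure_induction (p := fun m _ => g * m ∈ F.RI w I) ?_ ?_ ?_ ?_ hm
    · rintro _ ⟨l, hl, b, rfl⟩
      exact key g hg l hl b
    · rw [mul_zero]; exact AddSubgroup.zero_mem _
    · intro a b _ _ ha hb
      rw [mul_add]; exact AddSubgroup.add_mem _ ha hb
    · intro a _ ha
      rw [mul_neg]; exact AddSubgroup.neg_mem _ ha
  have ha : a ∈ Subring.closure F.gens := by rw [hgen]; trivial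
  refine Subring.closure_induction (p := fun a _ => ∀ m ∈ F.RI w I, a * m ∈ F.RI w I)
    ?_ ?_ ?_ ?_ ?_ ?_ ha
  · intro g hg
    exact key2 g hg
  · intro m _
    rw [zero_mul]; exact AddSubgroup.zero_mem _
  · intro m hm
    rwa [one_mul]
  · intro a b _ _ ha hb m hm
    rw [add_mul]; exact AddSubgroup.add_mem _ (ha m hm) (hb m hm)
  · intro a _ ha m hm
    rw [neg_mul]; exact AddSubgroup.neg_mem _ (ha m hm)
  · intro a b _ _ ha hb m hm
    rw [mul_assoc]; exact ha _ (hb m hm)

theorem left_unit (h : F.Adapted w I) (hgen : Subring.closure F.gens = ⊤) (a : A) :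
    ∃ S₀ : Finset (List Ed), (∀ l ∈ S₀, l ∈ Pth I) ∧ ∀ S : Finset (List Ed), S₀ ⊆ S →
      (∀ l ∈ S, l ∈ Pth I) → F.eF w S * (a * w) = a * w := by
  classical
  have h1 : a * w ∈ F.RI w I :=
    RI_mul h hgen a w (AddSubgroup.subset_closure ⟨[], nil_mem, 1, (mul_one w).symm⟩)
  refine AddSubgroup.closure_induction (p := fun m _ => ∃ S₀ : Finset (List Ed),
    (∀ l ∈ S₀, l ∈ Pth I) ∧ ∀ S : Finset (List Ed), S₀ ⊆ S →
      (∀ l ∈ S, l ∈ Pth I) → F.eF w S * m = m) ?_ ?_ ?_ ?_ h1
  · rintro _ ⟨l, hl, b, rfl⟩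
    refine ⟨{l}, fun m hm => by rw [Finset.mem_singleton.1 hm]; exact hl, fun S hS hSI => ?_⟩
    rw [← mul_assoc, eF_x h S hSI l (hS (Finset.mem_singleton_self l))]
  · exact ⟨∅, fun l hl => absurd hl (Finset.notMem_empty l), fun S _ _ => mul_zero _⟩
  · rintro a b _ _ ⟨S₁, h1, h2⟩ ⟨S₂, h3, h4⟩
    refine ⟨S₁ ∪ S₂, fun l hl => (Finset.mem_union.1 hl).elim (h1 l) (h3 l), fun S hS hSI => ?_⟩
    rw [mul_add, h2 S (Finset.union_subset_left hS) hSI, h4 S (Finset.union_subset_right hS) hSI]
  · rintro a _ ⟨S₁, h1, h2⟩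
    exact ⟨S₁, h1, fun S hS hSI => by rw [mul_neg, h2 S hS hSI]⟩

theorem gens_op (hgen : Subring.closure F.gens = ⊤) : Subring.closure F.op.gens = ⊤ := by
  rw [eq_top_iff]
  rintro ⟨a⟩ _
  have ha : a ∈ Subring.closure F.gens := by rw [hgen]; trivial
  show MulOpposite.op a ∈ _
  refine Subring.closure_induction (p := fun a _ => MulOpposite.op a ∈ Subring.closure F.op.gens)
    ?_ ?_ ?_ ?_ ?_ ?_ ha
  · rintro g (((⟨k, rfl⟩ | ⟨v, rfl⟩) | ⟨e, rfl⟩) | ⟨e, rfl⟩)
    · exact Subring.subset_closure (Or.inl (Or.inl (Or.inl ⟨k, rfl⟩)))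
    · exact Subring.subset_closure (Or.inl (Or.inl (Or.inr ⟨v, rfl⟩)))
    · exact Subring.subset_closure (Or.inr ⟨e, rfl⟩)
    · exact Subring.subset_closure (Or.inl (Or.inr ⟨e, rfl⟩))
  · exact Subring.zero_mem _
  · exact Subring.one_mem _
  · intro a b _ _ ha hb
    exact Subring.add_mem _ ha hb
  · intro a _ ha
    exact Subring.neg_mem _ ha
  · intro a b _ _ ha hb
    exact Subring.mul_mem _ hb ha

theorem right_unit (h : F.Adapted w I) (hgen : Subring.closure F.gens = ⊤) (a : A) :
    ∃ S₀ : Finset (List Ed), (∀ l ∈ S₀, l ∈ Pth I) ∧ ∀ S : Finset (List Ed), S₀ ⊆ S →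
      (∀ l ∈ S, l ∈ Pth I) → (w * a) * F.eF w S = w * a := by
  obtain ⟨S₀, h1, h2⟩ := left_unit h.op (gens_op hgen) (MulOpposite.op a)
  refine ⟨S₀, h1, fun S hS hSI => ?_⟩
  have h3 := h2 S hS hSI
  have h4 : F.op.eF (MulOpposite.op w) S = MulOpposite.op (F.eF w S) := by
    have h5 : MulOpposite.op (F.eF w S) = ∑ l ∈ S, MulOpposite.op (F.x w l * F.y w l) :=
      map_sum (MulOpposite.opAddEquiv : A ≃+ Aᵐᵒᵖ) _ _
    rw [h5, eF]
    refine Finset.sum_congr rfl fun l _ => ?_
    rw [x_op, y_op]
    rfl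
  rw [h4] at h3
  exact congrArg MulOpposite.unop h3

/-- the ideal generated by `w` has local units -/
theorem local_units (h : F.Adapted w I) (hgen : Subring.closure F.gens = ⊤) (T : Set A)
    (hT : T.Finite) (hTI : ∀ t ∈ T, t ∈ TwoSidedIdeal.span {w}) :
    ∃ S : Finset (List Ed), (∀ l ∈ S, l ∈ Pth I) ∧
      ∀ t ∈ T, F.eF w S * t = t ∧ t * F.eF w S = t := by
  classical
  have h1 : ∀ t ∈ TwoSidedIdeal.span {w}, ∃ S₀ : Finset (List Ed), (∀ l ∈ S₀, l ∈ Pth I) ∧
      ∀ S : Finset (List Ed), S₀ ⊆ S → (∀ l ∈ S, l ∈ Pth I) →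
        F.eF w S * t = t ∧ t * F.eF w S = t := by
    intro t ht
    rw [TwoSidedIdeal.mem_span_iff_mem_addSubgroup_closure] at ht
    refine AddSubgroup.closure_induction (p := fun t _ => ∃ S₀ : Finset (List Ed),
      (∀ l ∈ S₀, l ∈ Pth I) ∧ ∀ S : Finset (List Ed), S₀ ⊆ S →
        (∀ l ∈ S, l ∈ Pth I) → F.eF w S * t = t ∧ t * F.eF w S = t) ?_ ?_ ?_ ?_ ht
    · rintro _ ⟨_, ⟨a, _, w', hw', rfl⟩, b, _, rfl⟩
      rw [Set.mem_singleton_iff.1 hw']
      obtain ⟨S₁, h1, h2⟩ := left_unit h hgen a
      obtain ⟨S₂, h3, h4⟩ := right_unit h hgen b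
      refine ⟨S₁ ∪ S₂, fun l hl => (Finset.mem_union.1 hl).elim (h1 l) (h3 l),
        fun S hS hSI => ⟨?_, ?_⟩⟩
      · show F.eF w S * (a * w * b) = a * w * b
        rw [← mul_assoc, h2 S (Finset.union_subset_left hS) hSI]
      · show a * w * b * F.eF w S = a * w * b
        have h5 := h4 S (Finset.union_subset_right hS) hSI
        rw [mul_assoc a w b, mul_assoc a, h5]
    · exact ⟨∅, fun l hl => absurd hl (Finset.notMem_empty l),
        fun S _ _ => ⟨mul_zero _, zero_mul _⟩⟩
    · rintro a b _ _ ⟨S₁, h1, h2⟩ ⟨S₂, h3, h4⟩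
      refine ⟨S₁ ∪ S₂, fun l hl => (Finset.mem_union.1 hl).elim (h1 l) (h3 l),
        fun S hS hSI => ⟨?_, ?_⟩⟩
      · rw [mul_add, (h2 S (Finset.union_subset_left hS) hSI).1,
          (h4 S (Finset.union_subset_right hS) hSI).1]
      · rw [add_mul, (h2 S (Finset.union_subset_left hS) hSI).2,
          (h4 S (Finset.union_subset_right hS) hSI).2]
    · rintro a _ ⟨S₁, h1, h2⟩
      exact ⟨S₁, h1, fun S hS hSI => ⟨by rw [mul_neg, (h2 S hS hSI).1],
        by rw [neg_mul, (h2 S hS hSI).2]⟩⟩
  choose! S₀ hS₁ hS₂ using h1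
  refine ⟨hT.toFinset.biUnion S₀, ?_, ?_⟩
  · intro l hl
    obtain ⟨t, ht, hlt⟩ := Finset.mem_biUnion.1 hl
    exact hS₁ t (hTI t (hT.mem_toFinset.1 ht)) l hlt
  · intro t ht
    refine hS₂ t (hTI t ht) _ (Finset.subset_biUnion_of_mem S₀ (hT.mem_toFinset.2 ht)) ?_
    intro l hl
    obtain ⟨t', ht', hlt⟩ := Finset.mem_biUnion.1 hl
    exact hS₁ t' (hTI t' (hT.mem_toFinset.1 ht')) l hlt

/-- the elements of the corner `w A w` -/
theorem corner_mem (h : F.Adapted w I) (hgen : Subring.closure F.gens = ⊤) (U : AddSubgroup A)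
    (h0 : w ∈ U) (h1 : ∀ u ∈ U, w * u = u) (h2 : ∀ k, ∀ u ∈ U, F.ι k * u ∈ U)
    (h3 : ∀ v, ∀ u ∈ U, F.p v * u ∈ U) (h4 : ∀ e, ¬ I e → ∀ u ∈ U, F.s e * u ∈ U)
    (h5 : ∀ e, ¬ I e → ∀ u ∈ U, F.t e * u ∈ U) (a : A) : w * (a * w) ∈ U := by
  let L : AddSubgroup A := AddSubgroup.closure {a | ∃ l ∈ Pth I, ∃ u ∈ U, a = F.x w l * u}
  have hx : ∀ l ∈ Pth I, ∀ u ∈ U, F.x w l * u ∈ L := fun l hl u hu =>
    AddSubgroup.subset_closure ⟨l, hl, u, hu, rfl⟩
  have hU : ∀ u ∈ U, u ∈ L := by
    intro u hu
    have := hx [] nil_mem u hu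
    rwa [show F.x w [] * u = u from h1 u hu] at this
  have hp : ∀ v, ∀ l ∈ Pth I, ∀ u ∈ U, F.p v * (F.x w l * u) ∈ L := by
    intro v l hl u hu
    cases l with
    | nil =>
      have : F.p v * (F.x w [] * u) = F.p v * u := by
        show F.p v * (w * u) = _
        rw [h1 u hu]
      rw [this]
      exact hU _ (h3 v u hu)
    | cons e l =>
      by_cases hv : v = src e
      · subst hv
        have : F.p (src e) * (F.x w (e :: l) * u) = F.x w (e :: l) * u := by
          show F.p (src e) * (F.s e * F.x w l * u) = F.s e * F.x w l * u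
          rw [← mul_assoc, ← mul_assoc, F.ps]
        rw [this]
        exact hx _ hl _ hu
      · have : F.p v * (F.x w (e :: l) * u) = 0 := by
          show F.p v * (F.s e * F.x w l * u) = 0
          rw [← mul_assoc, ← mul_assoc, F.ps' v e hv, zero_mul, zero_mul]
        rw [this]
        exact AddSubgroup.zero_mem _
  have key : ∀ g ∈ F.gens, ∀ l ∈ Pth I, ∀ u ∈ U, g * (F.x w l * u) ∈ L := by
    rintro g (((⟨k, rfl⟩ | ⟨v, rfl⟩) | ⟨e, rfl⟩) | ⟨e, rfl⟩) l hl u hu
    · rw [← mul_assoc, F.comm, mul_assoc]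
      exact hx l hl _ (h2 k u hu)
    · exact hp v l hl u hu
    · by_cases he : I e
      · have : F.s e * (F.x w l * u) = F.x w (e :: l) * u := by
          show _ = F.s e * F.x w l * u
          rw [mul_assoc]
        rw [this]
        exact hx _ (cons_mem.2 ⟨he, hl⟩) _ hu
      · cases l with
        | nil =>
          have : F.s e * (F.x w [] * u) = F.s e * u := by
            show F.s e * (w * u) = _
            rw [h1 u hu]
          rw [this]
          exact hU _ (h4 e he u hu)
        | cons f l =>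
          have : F.s e * (F.x w (f :: l) * u) = 0 := by
            show F.s e * (F.s f * F.x w l * u) = 0
            rw [← h.sw' e he, mul_assoc (F.s e) w, ← mul_assoc w, ← mul_assoc w,
              h.ws f (cons_mem.1 hl).1, zero_mul, zero_mul, mul_zero]
          rw [this]
          exact AddSubgroup.zero_mem _
    · by_cases he : I e
      · cases l with
        | nil =>
          have : F.t e * (F.x w [] * u) = 0 := by
            show F.t e * (w * u) = 0
            rw [← mul_assoc, h.tw e he, zero_mul]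
          rw [this]
          exact AddSubgroup.zero_mem _
        | cons f l =>
          have h6 : F.t e * (F.x w (f :: l) * u) = F.t e * F.s f * (F.x w l * u) := by
            show F.t e * (F.s f * F.x w l * u) = F.t e * F.s f * (F.x w l * u)
            noncomm_ring
          rw [h6]
          by_cases hef : e = f
          · subst hef
            rw [F.tse]
            exact hp _ l (cons_mem.1 hl).2 u hu
          · rw [F.tsf e f hef, zero_mul]
            exact AddSubgroup.zero_mem _
      · cases l with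
        | nil =>
          have : F.t e * (F.x w [] * u) = F.t e * u := by
            show F.t e * (w * u) = _
            rw [h1 u hu]
          rw [this]
          exact hU _ (h5 e he u hu)
        | cons f l =>
          have : F.t e * (F.x w (f :: l) * u) = 0 := by
            show F.t e * (F.s f * F.x w l * u) = 0
            rw [← h.tw' e he, mul_assoc (F.t e) w, ← mul_assoc w, ← mul_assoc w,
              h.ws f (cons_mem.1 hl).1, zero_mul, zero_mul, mul_zero]
          rw [this]
          exact AddSubgroup.zero_mem _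
  have key2 : ∀ g ∈ F.gens, ∀ m ∈ L, g * m ∈ L := by
    intro g hg m hm
    refine AddSubgroup.closure_induction (p := fun m _ => g * m ∈ L) ?_ ?_ ?_ ?_ hm
    · rintro _ ⟨l, hl, u, hu, rfl⟩
      exact key g hg l hl u hu
    · rw [mul_zero]; exact AddSubgroup.zero_mem _
    · intro a b _ _ ha hb
      rw [mul_add]; exact AddSubgroup.add_mem _ ha hb
    · intro a _ ha
      rw [mul_neg]; exact AddSubgroup.neg_mem _ ha
  have ha : a ∈ Subring.closure F.gens := by rw [hgen]; trivial
  have haL : ∀ m ∈ L, a * m ∈ L := by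
    refine Subring.closure_induction (p := fun a _ => ∀ m ∈ L, a * m ∈ L)
      ?_ ?_ ?_ ?_ ?_ ?_ ha
    · intro g hg
      exact key2 g hg
    · intro m _
      rw [zero_mul]; exact AddSubgroup.zero_mem _
    · intro m hm
      rwa [one_mul]
    · intro a b _ _ ha hb m hm
      rw [add_mul]; exact AddSubgroup.add_mem _ (ha m hm) (hb m hm)
    · intro a _ ha m hm
      rw [neg_mul]; exact AddSubgroup.neg_mem _ (ha m hm)
    · intro a b _ _ ha hb m hm
      rw [mul_assoc]; exact ha _ (hb m hm)
  have hLU : ∀ m ∈ L, w * m ∈ U := by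
    intro m hm
    refine AddSubgroup.closure_induction (p := fun m _ => w * m ∈ U) ?_ ?_ ?_ ?_ hm
    · rintro _ ⟨l, hl, u, hu, rfl⟩
      cases l with
      | nil =>
        show w * (w * u) ∈ U
        rw [h1 u hu, h1 u hu]
        exact hu
      | cons e l =>
        have : w * (F.x w (e :: l) * u) = 0 := by
          show w * (F.s e * F.x w l * u) = 0
          rw [← mul_assoc, ← mul_assoc, h.ws e (cons_mem.1 hl).1, zero_mul, zero_mul]
        rw [this]
        exact AddSubgroup.zero_mem _
    · rw [mul_zero]; exact AddSubgroup.zero_mem _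
    · intro a b _ _ ha hb
      rw [mul_add]; exact AddSubgroup.add_mem _ ha hb
    · intro a _ ha
      rw [mul_neg]; exact AddSubgroup.neg_mem _ ha
  exact hLU _ (haL _ (hU w h0))

end Fam

end Pool.Agent.H40E9.LP
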