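import Pool.Agent.H40E9.LP.Cyc

/-!
# Graphs with disjoint cycles
-/

set_option autoImplicit false
set_option linter.unusedSectionVars false

namespace Pool.Agent.H40E9.LP

open Pool.Agent.Y110.FJ
open Pool.Agent.Y462.SS (Closed)
open Pool.Agent.H40E9.FK
open Polynomial

variable {C : ∀ (G : Type) [Group G], Prop}

/-- there is a directed path -/
def Reach {V Ed : Type} (src rng : Ed → V) : V → V → Prop :=
  Relation.ReflTransGen fun a b => ∃ e, src e = a ∧ rng e = b

/-- Every vertex is on at most one cycle: at most one of the edges which start at a vertex lies on a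
closed path. -/
def DisjointCycles {V Ed : Type} (src rng : Ed → V) : Prop :=
  ∀ e f, src e = src f → Reach src rng (rng e) (src e) → Reach src rng (rng f) (src f) → e = f

namespace Fam

variable {K : Type} [Field K] {V Ed : Type} {src rng : Ed → V} {A : Type} [Ring A]

/-- a cycle without exits -/
theorem exists_cyc [Fintype V] [Fintype Ed] (hD : DisjointCycles src rng) (F : Fam K src rng A)
    (hq : ∀ v, F.q v = 0) (v₀ : V) (hv₀ : F.p v₀ ≠ 0) :
    ∃ (H : Finset V) (_ : F.Cyc H), ∃ v ∈ H, F.p v ≠ 0 := by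
  classical
  let P : Finset V → Prop := fun H => H.Nonempty ∧ (∀ v ∈ H, F.p v ≠ 0) ∧
    ∀ e, F.s e ≠ 0 → src e ∈ H → rng e ∈ H
  have hrng : ∀ e, F.s e ≠ 0 → F.p (rng e) ≠ 0 := by
    intro e he h
    exact he (by rw [← F.sp, h, mul_zero])
  have hP0 : P (Finset.univ.filter fun v => F.p v ≠ 0) := by
    refine ⟨⟨v₀, by simpa using hv₀⟩, fun v hv => (Finset.mem_filter.1 hv).2, fun e he _ => ?_⟩
    exact Finset.mem_filter.2 ⟨Finset.mem_univ _, hrng e he⟩
  obtain ⟨H, hH, hmin⟩ := Finset.exists_min_image (Finset.univ.filter P) Finset.card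
    ⟨_, Finset.mem_filter.2 ⟨Finset.mem_univ _, hP0⟩⟩
  have hPH : P H := (Finset.mem_filter.1 hH).2
  have hsub : ∀ H', P H' → H' ⊆ H → H' = H := fun H' hP hle =>
    Finset.eq_of_subset_of_card_le hle (hmin H' (Finset.mem_filter.2 ⟨Finset.mem_univ _, hP⟩))
  obtain ⟨hne, hp, hher⟩ := hPH
  have ha : ∀ v ∈ H, ∃ e, src e = v ∧ F.s e ≠ 0 := by
    intro v hv
    by_contra hcon
    push Not at hcon
    refine hp v hv ?_
    have h1 := hq v
    rw [Fam.q, sub_eq_zero] at h1
    rw [h1]
    refine Finset.sum_eq_zero fun e he => ?_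
    rw [hcon e (Finset.mem_filter.1 he).2, zero_mul]
  have hb : ∀ e, F.s e ≠ 0 → src e ∈ H → Reach src rng (rng e) (src e) := by
    intro e he hsrc
    have h1 : P (H.filter fun x => Reach src rng (rng e) x) := by
      refine ⟨⟨rng e, Finset.mem_filter.2 ⟨hher e he hsrc, Relation.ReflTransGen.refl⟩⟩,
        fun v hv => hp v (Finset.mem_filter.1 hv).1, fun f hf hfs => ?_⟩
      obtain ⟨h2, h3⟩ := Finset.mem_filter.1 hfs
      exact Finset.mem_filter.2 ⟨hher f hf h2, h3.tail ⟨f, rfl, rfl⟩⟩
    have h2 := hsub _ h1 (Finset.filter_subset _ _)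
    rw [← h2] at hsrc
    exact (Finset.mem_filter.1 hsrc).2
  have huniq : ∀ e f, F.s e ≠ 0 → F.s f ≠ 0 → src e ∈ H → src e = src f → e = f :=
    fun e f he hf hH h => hD e f h (hb e he hH) (hb f hf (h ▸ hH))
  have hsurj : ∀ x ∈ H, ∃ e, F.s e ≠ 0 ∧ src e ∈ H ∧ rng e = x := by
    have h1 : P (H.filter fun x => ∃ e, F.s e ≠ 0 ∧ src e ∈ H ∧ rng e = x) := by
      obtain ⟨v, hv⟩ := hne
      obtain ⟨e, he1, he2⟩ := ha v hv
      have hs : src e ∈ H := he1 ▸ hv
      refine ⟨⟨rng e, Finset.mem_filter.2 ⟨hher e he2 hs, e, he2, hs, rfl⟩⟩,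
        fun v hv => hp v (Finset.mem_filter.1 hv).1, fun f hf hfs => ?_⟩
      obtain ⟨h2, -⟩ := Finset.mem_filter.1 hfs
      exact Finset.mem_filter.2 ⟨hher f hf h2, f, hf, h2, rfl⟩
    intro x hx
    rw [← hsub _ h1 (Finset.filter_subset _ _)] at hx
    exact (Finset.mem_filter.1 hx).2
  choose ε hε1 hε2 using fun v : ↥H => ha v v.2
  have hnH : ∀ v : ↥H, rng (ε v) ∈ H := fun v => hher _ (hε2 v) (by rw [hε1]; exact v.2)
  let n : ↥H → ↥H := fun v => ⟨rng (ε v), hnH v⟩
  have hn : Function.Surjective n := by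
    rintro ⟨x, hx⟩
    obtain ⟨e, he1, he2, he3⟩ := hsurj x hx
    refine ⟨⟨src e, he2⟩, Subtype.ext ?_⟩
    show rng (ε ⟨src e, he2⟩) = x
    rw [huniq (ε ⟨src e, he2⟩) e (hε2 _) he1 (by rw [hε1]; exact he2) (hε1 _), he3]
  have hnb : Function.Bijective n := ⟨Finite.injective_iff_surjective.2 hn, hn⟩
  obtain ⟨v, hv⟩ := hne
  refine ⟨H, ⟨ε, Equiv.ofBijective n hnb, hε1, fun v => rfl, ?_, ?_⟩, v, hv, hp v hv⟩
  · intro v
    have h1 := hq v
    rw [Fam.q, sub_eq_zero] at h1
    rw [h1, Finset.sum_eq_single (ε v)]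
    · intro f hf hne
      by_cases h2 : F.s f = 0
      · rw [h2, zero_mul]
      · exact (hne (huniq f (ε v) h2 (hε2 v) (by rw [(Finset.mem_filter.1 hf).2]; exact v.2)
          (by rw [(Finset.mem_filter.1 hf).2, hε1]))).elim
    · intro h
      exact (h (Finset.mem_filter.2 ⟨Finset.mem_univ _, hε1 v⟩)).elim
  · intro e he hne
    by_contra h2
    exact hne ⟨src e, he⟩ (huniq _ e (hε2 _) h2 (by rw [hε1]; exact he) (hε1 _))

open Classical in
/-- the number of vertices which are not zero and of those without the relation `q v = 0` -/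
noncomputable def mu [Fintype V] [Fintype Ed] (F : Fam K src rng A) : ℕ :=
  (Finset.univ.filter fun v => F.p v ≠ 0).card + (Finset.univ.filter fun v => F.q v ≠ 0).card

theorem mu_eq [Fintype V] [Fintype Ed] (F : Fam K src rng A) [DecidablePred fun v => F.p v ≠ 0]
    [DecidablePred fun v => F.q v ≠ 0] : F.mu =
    (Finset.univ.filter fun v => F.p v ≠ 0).card + (Finset.univ.filter fun v => F.q v ≠ 0).card := by
  unfold mu
  congr!

theorem map_q [Fintype Ed] (F : Fam K src rng A) {B : Type} [Ring B] (f : A →+* B)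
    (hf : Function.Surjective f) (v : V) : (F.map f hf).q v = f (F.q v) := by
  classical
  rw [Fam.q, Fam.q, map_sub, map_sum]
  congr 1
  refine Finset.sum_congr rfl fun e _ => ?_
  rw [map_mul]
  rfl

theorem gens_map (F : Fam K src rng A) {B : Type} [Ring B] (f : A →+* B)
    (hf : Function.Surjective f) (hgen : Subring.closure F.gens = ⊤) :
    Subring.closure (F.map f hf).gens = ⊤ := by
  have h1 : (F.map f hf).gens = f '' F.gens := by
    rw [gens, gens, Set.image_union, Set.image_union, Set.image_union, ← Set.range_comp,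
      ← Set.range_comp, ← Set.range_comp, ← Set.range_comp]
    rfl
  rw [h1, ← RingHom.map_closure, hgen, ← RingHom.range_eq_map]
  exact RingHom.range_eq_top_of_surjective f hf

theorem gls_of_subsingleton (hC : Closed C) [Subsingleton A] : GLs C A := by
  intro n
  refine hC.of_injective _ (Multiplicative ℤ) 1 ?_ hC.int
  intro x y _
  apply Units.ext
  ext i j
  exact Subsingleton.elim _ _

/-- **the case of finite graphs** -/
theorem ind (hC : ClosedE C) (hK : GLs C K[X]) [Fintype V] [Fintype Ed]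
    (hD : DisjointCycles src rng) : ∀ (N : ℕ) (A : Type) [Ring A] (F : Fam K src rng A),
      ∑ v, F.p v = 1 → Subring.closure F.gens = ⊤ → F.mu ≤ N → GLs C A := by
  classical
  intro N
  induction N with
  | zero =>
    intro A _ F hsum _ hmu
    have h1 : (Finset.univ.filter fun v => F.p v ≠ 0).card = 0 := by
      rw [mu] at hmu; omega
    have h2 : ∀ v, F.p v = 0 := by
      intro v
      by_contra h
      rw [Finset.card_eq_zero] at h1
      exact absurd (Finset.mem_filter.2 ⟨Finset.mem_univ v, h⟩) (by rw [h1]; exact Finset.notMem_empty v)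
    have h3 : (1 : A) = 0 := by
      rw [← hsum]
      exact Finset.sum_eq_zero fun v _ => h2 v
    have : Subsingleton A := subsingleton_of_zero_eq_one h3.symm
    exact gls_of_subsingleton hC.base
  | succ N ih =>
    intro A _ F hsum hgen hmu
    have hq : ∀ w : A, ∀ (v₁ : V), (F.p v₁ ≠ 0 ∧ F.p v₁ * w = F.p v₁) ∨ (F.q v₁ ≠ 0 ∧ F.q v₁ = w) →
        GLs C (TwoSidedIdeal.span {w}).ringCon.Quotient := by
      intro w v₁ hv₁
      let π : A →+* (TwoSidedIdeal.span {w}).ringCon.Quotient := RingCon.mk' _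
      have hπ : Function.Surjective π := RingCon.mk'_surjective _
      have hπw : π w = 0 := by
        have h1 : w ∈ TwoSidedIdeal.span {w} := TwoSidedIdeal.subset_span rfl
        rw [TwoSidedIdeal.mem_iff] at h1
        exact ((RingCon.eq _).2 h1).trans (map_zero π)
      refine ih _ (F.map π hπ) ?_ (F.gens_map π hπ hgen) ?_
      · show ∑ v, π (F.p v) = 1
        rw [← map_sum, hsum, map_one]
      · have hp1 : (Finset.univ.filter fun v => (F.map π hπ).p v ≠ 0) ⊆
            Finset.univ.filter fun v => F.p v ≠ 0 := by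
          intro v hv
          refine Finset.mem_filter.2 ⟨Finset.mem_univ v, fun h => ?_⟩
          exact (Finset.mem_filter.1 hv).2 (by show π (F.p v) = 0; rw [h, map_zero])
        have hq1 : (Finset.univ.filter fun v => (F.map π hπ).q v ≠ 0) ⊆
            Finset.univ.filter fun v => F.q v ≠ 0 := by
          intro v hv
          refine Finset.mem_filter.2 ⟨Finset.mem_univ v, fun h => ?_⟩
          exact (Finset.mem_filter.1 hv).2 (by rw [map_q, h, map_zero])
        rw [mu_eq] at hmu ⊢
        rcases hv₁ with ⟨h1, h2⟩ | ⟨h1, h2⟩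
        · have h3 : (Finset.univ.filter fun v => (F.map π hπ).p v ≠ 0).card <
              (Finset.univ.filter fun v => F.p v ≠ 0).card := by
            refine Finset.card_lt_card ⟨hp1, fun h => ?_⟩
            have h4 := h (Finset.mem_filter.2 ⟨Finset.mem_univ v₁, h1⟩)
            refine (Finset.mem_filter.1 h4).2 ?_
            show π (F.p v₁) = 0
            rw [← h2, map_mul, hπw, mul_zero]
          have h4 := Finset.card_le_card hq1
          omega
        · have h3 : (Finset.univ.filter fun v => (F.map π hπ).q v ≠ 0).card <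
              (Finset.univ.filter fun v => F.q v ≠ 0).card := by
            refine Finset.card_lt_card ⟨hq1, fun h => ?_⟩
            have h4 := h (Finset.mem_filter.2 ⟨Finset.mem_univ v₁, h1⟩)
            refine (Finset.mem_filter.1 h4).2 ?_
            rw [map_q, h2, hπw]
          have h4 := Finset.card_le_card hp1
          omega
    by_cases h1 : ∃ v, F.q v ≠ 0
    · obtain ⟨v, hv⟩ := h1
      exact step hC F hgen (F.adapted_q v) (F.corner_q hC.base hK hgen v)
        (hq _ v (Or.inr ⟨hv, rfl⟩))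
    · push Not at h1
      by_cases h2 : ∃ v, F.p v ≠ 0
      · obtain ⟨v, hv⟩ := h2
        obtain ⟨H, c, v₁, hv₁, hp₁⟩ := exists_cyc hD F h1 v hv
        exact step hC F hgen c.adapted (c.corner hC.base hK hgen)
          (hq _ v₁ (Or.inl ⟨hp₁, p_wH v₁ hv₁⟩))
      · push Not at h2
        have h3 : (1 : A) = 0 := by
          rw [← hsum]
          exact Finset.sum_eq_zero fun v _ => h2 v
        have : Subsingleton A := subsingleton_of_zero_eq_one h3.symm
        exact gls_of_subsingleton hC.base

end Fam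

end Pool.Agent.H40E9.LP
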