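import Pool.Agent.H40E9.LP.Ind

/-!
# Infinite graphs with disjoint cycles
-/

set_option autoImplicit false
set_option linter.unusedSectionVars false

namespace Pool.Agent.H40E9.LP

open Pool.Agent.Y110.FJ
open Pool.Agent.Y462.SS (Closed)
open Pool.Agent.H40E9.FK
open Polynomial

variable {C : ∀ (G : Type) [Group G], Prop}

/-- a ring is in the class if all its finite subsets are in subrings which are in the class -/
theorem gls_local (hC : Closed C) {A : Type} [Ring A]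
    (h : ∀ T : Set A, T.Finite → ∃ B : Subring A, T ⊆ B ∧ GLs C B) : GLs C A := by
  classical
  intro n
  refine Q30.FJ.of_fg hC _ fun s => ?_
  let T : Set A := (fun q : (Matrix (Fin n) (Fin n) A)ˣ × Fin n × Fin n =>
    (q.1 : Matrix (Fin n) (Fin n) A) q.2.1 q.2.2) '' ((s : Set _) ×ˢ Set.univ) ∪
    (fun q : (Matrix (Fin n) (Fin n) A)ˣ × Fin n × Fin n =>
    ((q.1⁻¹ : (Matrix (Fin n) (Fin n) A)ˣ) : Matrix (Fin n) (Fin n) A) q.2.1 q.2.2) ''
      ((s : Set _) ×ˢ Set.univ)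
  have hT : T.Finite := ((s.finite_toSet.prod Set.finite_univ).image _).union
    ((s.finite_toSet.prod Set.finite_univ).image _)
  obtain ⟨B, hTB, hB⟩ := h T hT
  let Φ : Matrix (Fin n) (Fin n) B →+* Matrix (Fin n) (Fin n) A := B.subtype.mapMatrix
  have hΦ : Function.Injective Φ := Matrix.map_injective Subtype.val_injective
  have hle : Subgroup.closure (s : Set (Matrix (Fin n) (Fin n) A)ˣ) ≤
      (Units.map Φ.toMonoidHom).range := by
    rw [Subgroup.closure_le]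
    intro u hu
    have h1 : ∀ i j, (u : Matrix (Fin n) (Fin n) A) i j ∈ B := fun i j =>
      hTB (Or.inl ⟨(u, i, j), ⟨hu, Set.mem_univ _⟩, rfl⟩)
    have h2 : ∀ i j, ((u⁻¹ : (Matrix (Fin n) (Fin n) A)ˣ) : Matrix (Fin n) (Fin n) A) i j ∈ B :=
      fun i j => hTB (Or.inr ⟨(u, i, j), ⟨hu, Set.mem_univ _⟩, rfl⟩)
    let a : Matrix (Fin n) (Fin n) B := fun i j => ⟨(u : Matrix (Fin n) (Fin n) A) i j, h1 i j⟩
    let b : Matrix (Fin n) (Fin n) B := fun i j =>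
      ⟨((u⁻¹ : (Matrix (Fin n) (Fin n) A)ˣ) : Matrix (Fin n) (Fin n) A) i j, h2 i j⟩
    have ha : Φ a = u := rfl
    have hb : Φ b = ((u⁻¹ : (Matrix (Fin n) (Fin n) A)ˣ) : Matrix (Fin n) (Fin n) A) := rfl
    refine ⟨⟨a, b, hΦ ?_, hΦ ?_⟩, Units.ext rfl⟩
    · rw [map_mul, ha, hb, map_one, Units.mul_inv]
    · rw [map_mul, ha, hb, map_one, Units.inv_mul]
  have hinj : Function.Injective (Units.map Φ.toMonoidHom) := Units.map_injective hΦ
  exact hC.of_injective _ _ ((MonoidHom.ofInjective hinj).symm.toMonoidHom.comp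
    (Subgroup.inclusion hle)) ((MonoidHom.ofInjective hinj).symm.injective.comp
      (Subgroup.inclusion_injective hle)) (hB n)

namespace Fam

variable {K : Type} [Field K] {V Ed : Type} {src rng : Ed → V} {A : Type} [Ring A]

/-- the subring generated by a part of the graph -/
def cl (F : Fam K src rng A) (V₀ : Finset V) (E₀ : Finset Ed) : Subring A :=
  Subring.closure (Set.range F.ι ∪ F.p '' V₀ ∪ F.s '' E₀ ∪ F.t '' E₀)

theorem cl_mono (F : Fam K src rng A) {V₀ V₁ : Finset V} {E₀ E₁ : Finset Ed} (hV : V₀ ⊆ V₁)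
    (hE : E₀ ⊆ E₁) : F.cl V₀ E₀ ≤ F.cl V₁ E₁ := by
  refine Subring.closure_mono ?_
  refine Set.union_subset_union (Set.union_subset_union (Set.union_subset_union le_rfl ?_) ?_) ?_
  · exact Set.image_mono (by exact_mod_cast hV)
  · exact Set.image_mono (by exact_mod_cast hE)
  · exact Set.image_mono (by exact_mod_cast hE)

theorem exists_cl (F : Fam K src rng A) (hgen : Subring.closure F.gens = ⊤) (a : A) :
    ∃ (V₀ : Finset V) (E₀ : Finset Ed), (∀ e ∈ E₀, src e ∈ V₀ ∧ rng e ∈ V₀) ∧ a ∈ F.cl V₀ E₀ := by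
  classical
  have ha : a ∈ Subring.closure F.gens := by rw [hgen]; trivial
  refine Subring.closure_induction (p := fun a _ => ∃ (V₀ : Finset V) (E₀ : Finset Ed),
    (∀ e ∈ E₀, src e ∈ V₀ ∧ rng e ∈ V₀) ∧ a ∈ F.cl V₀ E₀) ?_ ?_ ?_ ?_ ?_ ?_ ha
  · rintro g (((⟨k, rfl⟩ | ⟨v, rfl⟩) | ⟨e, rfl⟩) | ⟨e, rfl⟩)
    · exact ⟨∅, ∅, fun e he => absurd he (Finset.notMem_empty e),
        Subring.subset_closure (Or.inl (Or.inl (Or.inl ⟨k, rfl⟩)))⟩
    · exact ⟨{v}, ∅, fun e he => absurd he (Finset.notMem_empty e),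
        Subring.subset_closure (Or.inl (Or.inl (Or.inr ⟨v, by simp, rfl⟩)))⟩
    · refine ⟨{src e, rng e}, {e}, fun f hf => ?_, Subring.subset_closure
        (Or.inl (Or.inr ⟨e, by simp, rfl⟩))⟩
      rw [Finset.mem_singleton.1 hf]
      simp
    · refine ⟨{src e, rng e}, {e}, fun f hf => ?_, Subring.subset_closure
        (Or.inr ⟨e, by simp, rfl⟩)⟩
      rw [Finset.mem_singleton.1 hf]
      simp
  · exact ⟨∅, ∅, fun e he => absurd he (Finset.notMem_empty e), Subring.zero_mem _⟩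
  · exact ⟨∅, ∅, fun e he => absurd he (Finset.notMem_empty e), Subring.one_mem _⟩
  · rintro a b _ _ ⟨V₁, E₁, h1, h2⟩ ⟨V₂, E₂, h3, h4⟩
    refine ⟨V₁ ∪ V₂, E₁ ∪ E₂, fun e he => ?_, Subring.add_mem _
      (F.cl_mono Finset.subset_union_left Finset.subset_union_left h2)
      (F.cl_mono Finset.subset_union_right Finset.subset_union_right h4)⟩
    rcases Finset.mem_union.1 he with he | he
    · exact ⟨Finset.mem_union_left _ (h1 e he).1, Finset.mem_union_left _ (h1 e he).2⟩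
    · exact ⟨Finset.mem_union_right _ (h3 e he).1, Finset.mem_union_right _ (h3 e he).2⟩
  · rintro a _ ⟨V₁, E₁, h1, h2⟩
    exact ⟨V₁, E₁, h1, Subring.neg_mem _ h2⟩
  · rintro a b _ _ ⟨V₁, E₁, h1, h2⟩ ⟨V₂, E₂, h3, h4⟩
    refine ⟨V₁ ∪ V₂, E₁ ∪ E₂, fun e he => ?_, Subring.mul_mem _
      (F.cl_mono Finset.subset_union_left Finset.subset_union_left h2)
      (F.cl_mono Finset.subset_union_right Finset.subset_union_right h4)⟩
    rcases Finset.mem_union.1 he with he | he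
    · exact ⟨Finset.mem_union_left _ (h1 e he).1, Finset.mem_union_left _ (h1 e he).2⟩
    · exact ⟨Finset.mem_union_right _ (h3 e he).1, Finset.mem_union_right _ (h3 e he).2⟩

section sub

variable (F : Fam K src rng A) (V₀ : Finset V) (E₀ : Finset Ed)
  (hE : ∀ e ∈ E₀, src e ∈ V₀ ∧ rng e ∈ V₀)

/-- sources of edges of the subgraph -/
def src₀ (hE : ∀ e ∈ E₀, src e ∈ V₀ ∧ rng e ∈ V₀) (e : ↥E₀) : Option ↥V₀ :=
  some ⟨src e, (hE e e.2).1⟩

/-- ranges of edges of the subgraph -/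
def rng₀ (hE : ∀ e ∈ E₀, src e ∈ V₀ ∧ rng e ∈ V₀) (e : ↥E₀) : Option ↥V₀ :=
  some ⟨rng e, (hE e e.2).2⟩

theorem mem_p (v : ↥V₀) : F.p v ∈ F.cl V₀ E₀ :=
  Subring.subset_closure (Or.inl (Or.inl (Or.inr ⟨v, v.2, rfl⟩)))

theorem mem_s (e : ↥E₀) : F.s e ∈ F.cl V₀ E₀ :=
  Subring.subset_closure (Or.inl (Or.inr ⟨e, e.2, rfl⟩))

theorem mem_t (e : ↥E₀) : F.t e ∈ F.cl V₀ E₀ :=
  Subring.subset_closure (Or.inr ⟨e, e.2, rfl⟩)

theorem mem_ι (k : K) : F.ι k ∈ F.cl V₀ E₀ :=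
  Subring.subset_closure (Or.inl (Or.inl (Or.inl ⟨k, rfl⟩)))

/-- the vertices of the subgraph and the complementary idempotent -/
def p₀ : Option ↥V₀ → F.cl V₀ E₀
  | none => 1 - ∑ v : ↥V₀, ⟨F.p v, F.mem_p V₀ E₀ v⟩
  | some v => ⟨F.p v, F.mem_p V₀ E₀ v⟩

theorem sum_mul_p (v : ↥V₀) : (∑ u : ↥V₀, (⟨F.p u, F.mem_p V₀ E₀ u⟩ : F.cl V₀ E₀)) *
    ⟨F.p v, F.mem_p V₀ E₀ v⟩ = ⟨F.p v, F.mem_p V₀ E₀ v⟩ := by
  classical
  rw [Finset.sum_mul, Finset.sum_eq_single v]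
  · exact Subtype.ext (F.pp v)
  · intro u _ hu
    exact Subtype.ext (F.pq u v (fun h => hu (Subtype.ext h)))
  · intro h
    exact (h (Finset.mem_univ _)).elim

theorem p_mul_sum (v : ↥V₀) : (⟨F.p v, F.mem_p V₀ E₀ v⟩ : F.cl V₀ E₀) *
    (∑ u : ↥V₀, (⟨F.p u, F.mem_p V₀ E₀ u⟩ : F.cl V₀ E₀)) = ⟨F.p v, F.mem_p V₀ E₀ v⟩ := by
  classical
  rw [Finset.mul_sum, Finset.sum_eq_single v]
  · exact Subtype.ext (F.pp v)
  · intro u _ hu
    exact Subtype.ext (F.pq v u (fun h => hu (Subtype.ext h.symm)))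
  · intro h
    exact (h (Finset.mem_univ _)).elim

/-- the family of the subgraph, with an additional isolated vertex -/
def sub : Fam K (src₀ V₀ E₀ hE) (rng₀ V₀ E₀ hE) (F.cl V₀ E₀) where
  ι := F.ι.codRestrict _ (F.mem_ι V₀ E₀)
  p := F.p₀ V₀ E₀
  s e := ⟨F.s e, F.mem_s V₀ E₀ e⟩
  t e := ⟨F.t e, F.mem_t V₀ E₀ e⟩
  comm k a := Subtype.ext (F.comm k a)
  pp v := by
    cases v with
    | none =>
      show (1 - ∑ v : ↥V₀, (⟨F.p v, F.mem_p V₀ E₀ v⟩ : F.cl V₀ E₀)) * (1 - ∑ v : ↥V₀,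
        (⟨F.p v, F.mem_p V₀ E₀ v⟩ : F.cl V₀ E₀)) = (1 - ∑ v : ↥V₀, ⟨F.p v, F.mem_p V₀ E₀ v⟩)
      rw [mul_sub, mul_one, sub_mul, one_mul]
      have : (∑ v : ↥V₀, (⟨F.p v, F.mem_p V₀ E₀ v⟩ : F.cl V₀ E₀)) *
          (∑ v : ↥V₀, (⟨F.p v, F.mem_p V₀ E₀ v⟩ : F.cl V₀ E₀)) =
          ∑ v : ↥V₀, (⟨F.p v, F.mem_p V₀ E₀ v⟩ : F.cl V₀ E₀) := by
        conv_lhs => rw [Finset.mul_sum]
        exact Finset.sum_congr rfl fun v _ => F.sum_mul_p V₀ E₀ v
      rw [this, sub_self, sub_zero]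
    | some v => exact Subtype.ext (F.pp v)
  pq v w h := by
    cases v with
    | none =>
      cases w with
      | none => exact absurd rfl h
      | some w =>
        show (1 - ∑ v : ↥V₀, (⟨F.p v, F.mem_p V₀ E₀ v⟩ : F.cl V₀ E₀)) *
          ⟨F.p w, F.mem_p V₀ E₀ w⟩ = 0
        rw [sub_mul, one_mul, F.sum_mul_p, sub_self]
    | some v =>
      cases w with
      | none =>
        show ⟨F.p v, F.mem_p V₀ E₀ v⟩ *
          (1 - ∑ v : ↥V₀, (⟨F.p v, F.mem_p V₀ E₀ v⟩ : F.cl V₀ E₀)) = 0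
        rw [mul_sub, mul_one, F.p_mul_sum, sub_self]
      | some w =>
        exact Subtype.ext (F.pq v w (fun h1 => h (by rw [Subtype.ext h1])))
  ps e := Subtype.ext (F.ps e)
  sp e := Subtype.ext (F.sp e)
  pt e := Subtype.ext (F.pt e)
  tp e := Subtype.ext (F.tp e)
  tse e := Subtype.ext (F.tse e)
  tsf e f h := Subtype.ext (F.tsf e f (fun h1 => h (Subtype.ext h1)))

theorem sub_sum : ∑ v, (F.sub V₀ E₀ hE).p v = 1 := by
  rw [Fintype.sum_option]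
  show (1 - ∑ v : ↥V₀, (⟨F.p v, F.mem_p V₀ E₀ v⟩ : F.cl V₀ E₀)) +
    ∑ v : ↥V₀, (⟨F.p v, F.mem_p V₀ E₀ v⟩ : F.cl V₀ E₀) = 1
  exact sub_add_cancel _ _

theorem sub_gen : Subring.closure (F.sub V₀ E₀ hE).gens = ⊤ := by
  rw [eq_top_iff]
  rintro ⟨x, hx⟩ _
  refine Subring.closure_induction (p := fun x hx => (⟨x, hx⟩ : F.cl V₀ E₀) ∈
    Subring.closure (F.sub V₀ E₀ hE).gens) ?_ ?_ ?_ ?_ ?_ ?_ hx
  · rintro x (((⟨k, rfl⟩ | ⟨v, hv, rfl⟩) | ⟨e, he, rfl⟩) | ⟨e, he, rfl⟩)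
    · exact Subring.subset_closure (Or.inl (Or.inl (Or.inl ⟨k, rfl⟩)))
    · exact Subring.subset_closure (Or.inl (Or.inl (Or.inr ⟨some ⟨v, hv⟩, rfl⟩)))
    · exact Subring.subset_closure (Or.inl (Or.inr ⟨⟨e, he⟩, rfl⟩))
    · exact Subring.subset_closure (Or.inr ⟨⟨e, he⟩, rfl⟩)
  · exact Subring.zero_mem _
  · exact Subring.one_mem _
  · intro a b _ _ ha hb
    exact Subring.add_mem _ ha hb
  · intro a _ ha
    exact Subring.neg_mem _ ha
  · intro a b _ _ ha hb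
    exact Subring.mul_mem _ ha hb

theorem sub_disj (hD : DisjointCycles src rng) :
    DisjointCycles (src₀ V₀ E₀ hE) (rng₀ V₀ E₀ hE) := by
  intro e f hef h1 h2
  have key : ∀ (v : V) (a b : Option ↥V₀), Reach (src₀ V₀ E₀ hE) (rng₀ V₀ E₀ hE) a b →
      Reach src rng (a.elim v Subtype.val) (b.elim v Subtype.val) := by
    intro v a b hab
    refine Relation.ReflTransGen.lift (fun a : Option ↥V₀ => a.elim v Subtype.val) ?_ _ _ hab
    rintro _ _ ⟨e, rfl, rfl⟩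
    exact ⟨e, rfl, rfl⟩
  have h3 : src e = src f := congrArg Subtype.val (Option.some.inj hef)
  exact Subtype.ext (hD e f h3 (key (src e) _ _ h1) (key (src f) _ _ h2))

end sub

/-- **all graphs with disjoint cycles** -/
theorem gls_of_disjoint (hC : ClosedE C) (hK : GLs C K[X]) (hD : DisjointCycles src rng)
    (F : Fam K src rng A) (hgen : Subring.closure F.gens = ⊤) : GLs C A := by
  classical
  refine gls_local hC.base fun T hT => ?_
  choose V₀ E₀ h1 h2 using F.exists_cl hgen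
  let V₁ : Finset V := hT.toFinset.biUnion V₀
  let E₁ : Finset Ed := hT.toFinset.biUnion E₀
  have hE : ∀ e ∈ E₁, src e ∈ V₁ ∧ rng e ∈ V₁ := by
    intro e he
    obtain ⟨a, ha, hea⟩ := Finset.mem_biUnion.1 he
    exact ⟨Finset.mem_biUnion.2 ⟨a, ha, (h1 a e hea).1⟩,
      Finset.mem_biUnion.2 ⟨a, ha, (h1 a e hea).2⟩⟩
  refine ⟨F.cl V₁ E₁, ?_, ?_⟩
  · intro a ha
    exact F.cl_mono (Finset.subset_biUnion_of_mem V₀ (hT.mem_toFinset.2 ha))
      (Finset.subset_biUnion_of_mem E₀ (hT.mem_toFinset.2 ha)) (h2 a)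
  · exact ind hC hK (sub_disj V₁ E₁ hE hD) _ _ (F.sub V₁ E₁ hE) (F.sub_sum V₁ E₁ hE)
      (F.sub_gen V₁ E₁ hE) le_rfl

end Fam

end Pool.Agent.H40E9.LP
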