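import Pool.Agent.H40E9.LP.Ring

/-!
# Automorphism groups of finitely generated modules over `K[X]`
-/

set_option autoImplicit false

namespace Pool.Agent.H40E9.LP

open Pool.Agent.Y110.FJ
open Pool.Agent.Y462.SS (Closed)
open Pool.Agent.H40E9.FK
open Polynomial

variable {C : ∀ (G : Type) [Group G], Prop}

/-- the action on a quotient -/
def quoHom {R M : Type} [Ring R] [AddCommGroup M] [Module R M] (P : Submodule R M)
    (hP : ∀ f : M ≃ₗ[R] M, ∀ x ∈ P, f x ∈ P) : (M ≃ₗ[R] M) →* (Module.End R (M ⧸ P))ˣ :=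
  MonoidHom.toHomUnits
    { toFun := fun f => P.mapQ P (f : M →ₗ[R] M) (hP f)
      map_one' := by
        ext x
        rfl
      map_mul' := fun f g => by
        ext x
        rfl }

theorem quoHom_mk {R M : Type} [Ring R] [AddCommGroup M] [Module R M] (P : Submodule R M)
    (hP : ∀ f : M ≃ₗ[R] M, ∀ x ∈ P, f x ∈ P) (f : M ≃ₗ[R] M) (x : M) :
    ((quoHom P hP f : (Module.End R (M ⧸ P))ˣ) : Module.End R (M ⧸ P)) (P.mkQ x) = P.mkQ (f x) :=
  rfl

theorem C_end_free (hC : Closed C) {R M : Type} [CommRing R] [StrongRankCondition R]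
    [AddCommGroup M] [Module R M] [Module.Free R M] [Module.Finite R M] (hR : GLs C R) :
    C (Module.End R M)ˣ := by
  let e : Module.End R M ≃* Matrix (Fin (Module.finrank R M)) (Fin (Module.finrank R M)) R :=
    (LinearMap.toMatrixAlgEquiv (Module.finBasis R M)).toMulEquiv
  exact hC.of_injective _ _ (Units.mapEquiv e).toMonoidHom (Units.mapEquiv e).injective (hR _)

theorem gls_map (hC : Closed C) {A B : Type} [Ring A] [Ring B] (f : A →+* B)
    (hf : Function.Injective f) (hB : GLs C B) : GLs C A := by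
  intro n
  refine hC.of_injective _ _ (Units.map (f.mapMatrix : Matrix (Fin n) (Fin n) A →+*
    Matrix (Fin n) (Fin n) B).toMonoidHom) ?_ (hB n)
  refine Units.map_injective ?_
  intro x y hxy
  exact Matrix.map_injective hf hxy

/-- finitely generated modules over `K[X]` which are killed by a monic polynomial -/
theorem C_torsion (hC : Closed C) {K : Type} [Field K] (hK : GLs C K) {Q : Type} [AddCommGroup Q]
    [Module K[X] Q] [Module.Finite K[X] Q] (a : K[X]) (ha : a.Monic) (haQ : ∀ q : Q, a • q = 0) :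
    C (Module.End K[X] Q)ˣ := by
  let _ : Module K Q := Module.compHom Q (Polynomial.C : K →+* K[X])
  have hsm : ∀ (k : K) (q : Q), k • q = (Polynomial.C k : K[X]) • q := fun k q => rfl
  have _ : IsScalarTower K K[X] Q := ⟨fun k f q => by
    rw [hsm, Polynomial.smul_eq_C_mul, mul_smul]⟩
  have hfin : Module.Finite K Q := by
    obtain ⟨n, g, hg⟩ := Module.Finite.exists_fin (R := K[X]) (M := Q)
    let S : Set Q := Set.range fun p : Fin n × Fin a.natDegree => (X ^ (p.2 : ℕ) : K[X]) • g p.1
    have key : ∀ (i : Fin n) (f : K[X]), f • g i ∈ Submodule.span K S := by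
      intro i f
      have h1 : f • g i = (f %ₘ a) • g i := by
        conv_lhs => rw [← modByMonic_add_div f a]
        rw [add_smul, mul_smul, haQ, add_zero]
      rw [h1]
      by_cases h0 : f %ₘ a = 0
      · rw [h0, zero_smul]; exact Submodule.zero_mem _
      · have hlt : (f %ₘ a).natDegree < a.natDegree :=
          natDegree_lt_natDegree h0 (degree_modByMonic_lt f ha)
        rw [as_sum_range' (f %ₘ a) a.natDegree hlt, Finset.sum_smul]
        refine Submodule.sum_mem _ fun j hj => ?_
        rw [← C_mul_X_pow_eq_monomial, mul_smul, ← hsm]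
        exact Submodule.smul_mem _ _ (Submodule.subset_span
          ⟨(i, ⟨j, Finset.mem_range.1 hj⟩), rfl⟩)
    have hS : S.Finite := Set.finite_range _
    refine ⟨⟨hS.toFinset, ?_⟩⟩
    rw [Set.Finite.coe_toFinset, eq_top_iff]
    intro q _
    have h2 : q ∈ Submodule.span K[X] (Set.range g) := by rw [hg]; trivial
    rw [Submodule.mem_span_range_iff_exists_fun] at h2
    obtain ⟨c, rfl⟩ := h2
    exact Submodule.sum_mem _ fun i _ => key i (c i)
  let F : Module.End K[X] Q →* Module.End K Q :=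
    { toFun := fun f => f.restrictScalars K
      map_one' := rfl
      map_mul' := fun f g => rfl }
  refine hC.of_injective _ _ (Units.map F) ?_ (C_end_free hC hK)
  refine Units.map_injective ?_
  intro f g hfg
  ext x
  exact congrArg (fun h : Module.End K Q => h x) hfg

/-- **finitely generated modules over `K[X]`** -/
theorem C_fin_mod (hC : Closed C) {K : Type} [Field K] (hK : GLs C K[X]) (M : Type)
    [AddCommGroup M] [Module K[X] M] [Module.Finite K[X] M] : C (M ≃ₗ[K[X]] M) := by
  have hT : ∀ f : M ≃ₗ[K[X]] M, ∀ x ∈ Submodule.torsion K[X] M, f x ∈ Submodule.torsion K[X] M := by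
    intro f x hx
    rw [Submodule.mem_torsion_iff] at hx ⊢
    obtain ⟨a, ha⟩ := hx
    refine ⟨a, ?_⟩
    have h1 : (a : K[X]) • x = 0 := ha
    show (a : K[X]) • f x = 0
    rw [← map_smul, h1, map_zero]
  obtain ⟨a, ha, haT⟩ : ∃ a : K[X], a.Monic ∧ ∀ x ∈ Submodule.torsion K[X] M, a • x = 0 := by
    obtain ⟨b, hb1, hb2⟩ := Submodule.annihilator_top_inter_nonZeroDivisors
      (Submodule.torsion_isTorsion (R := K[X]) (M := M))
    have hb0 : b ≠ 0 := nonZeroDivisors.ne_zero hb2
    refine ⟨b * Polynomial.C b.leadingCoeff⁻¹, monic_mul_leadingCoeff_inv hb0, ?_⟩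
    intro x hx
    have h1 := Submodule.mem_annihilator.1 hb1 (⟨x, hx⟩ : Submodule.torsion K[X] M) trivial
    have h2 : b • x = 0 := congrArg Subtype.val h1
    rw [mul_comm, mul_smul, h2, smul_zero]
  let P : Submodule K[X] M := LinearMap.range (a • (LinearMap.id : M →ₗ[K[X]] M))
  have hPm : ∀ x, x ∈ P ↔ ∃ y, a • y = x := fun x => Iff.rfl
  have hP : ∀ f : M ≃ₗ[K[X]] M, ∀ x ∈ P, f x ∈ P := by
    rintro f _ ⟨y, rfl⟩
    exact ⟨f y, by
      show a • f y = f (a • y)
      rw [map_smul]⟩
  have hPa : ∀ q : M ⧸ P, a • q = 0 := by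
    intro q
    obtain ⟨x, rfl⟩ := P.mkQ_surjective q
    rw [← map_smul, ← LinearMap.mem_ker, Submodule.ker_mkQ]
    exact ⟨x, rfl⟩
  refine hC.of_injective _ _ ((quoHom (Submodule.torsion K[X] M) hT).prod (quoHom P hP)) ?_
    (hC.prod _ _ (C_end_free hC hK)
      (C_torsion hC (gls_map hC (Polynomial.C : K →+* K[X]) Polynomial.C_injective hK) a ha hPa))
  rw [injective_iff_map_eq_one]
  intro f hf
  rw [MonoidHom.prod_apply, Prod.mk_eq_one] at hf
  ext x
  show f x = x
  have h1 : (Submodule.torsion K[X] M).mkQ (f x) = (Submodule.torsion K[X] M).mkQ x := by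
    rw [← quoHom_mk _ hT, hf.1]
    rfl
  have h2 : P.mkQ (f x) = P.mkQ x := by
    rw [← quoHom_mk _ hP, hf.2]
    rfl
  have h3 : f x - x ∈ Submodule.torsion K[X] M := by
    rw [← Submodule.ker_mkQ (Submodule.torsion K[X] M), LinearMap.mem_ker, map_sub, h1, sub_self]
  have h4 : f x - x ∈ P := by
    rw [← Submodule.ker_mkQ P, LinearMap.mem_ker, map_sub, h2, sub_self]
  obtain ⟨y, hy⟩ := (hPm _).1 h4
  have h5 : y ∈ Submodule.torsion K[X] M := by
    rw [← hy] at h3
    have h6 : a • (Submodule.torsion K[X] M).mkQ y = 0 := by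
      rw [← map_smul, ← LinearMap.mem_ker, Submodule.ker_mkQ]
      exact h3
    have h7 : (Submodule.torsion K[X] M).mkQ y = 0 :=
      (smul_eq_zero.1 h6).resolve_left ha.ne_zero
    rwa [← LinearMap.mem_ker, Submodule.ker_mkQ] at h7
  have h8 := haT y h5
  rw [h8] at hy
  exact (sub_eq_zero.1 hy.symm)

end Pool.Agent.H40E9.LP
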