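import Pool.Agent.H40E9.FK.Main

/-!
# Rings all of whose general linear groups are in a class of groups
-/

set_option autoImplicit false

namespace Pool.Agent.H40E9.LP

open Pool.Agent.Y110.FJ
open Pool.Agent.Y462.SS (Closed)
open Pool.Agent.H40E9.FK

/-- all groups `GL_n(A)` are in `C` -/
def GLs (C : ∀ (G : Type) [Group G], Prop) (A : Type) [Ring A] : Prop :=
  ∀ n : ℕ, C (Matrix (Fin n) (Fin n) A)ˣ

/-- all groups `GL_n(e A e)` are in `C` -/
def CornerGLs (C : ∀ (G : Type) [Group G], Prop) {A : Type} [Ring A] (e : A) : Prop :=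
  ∀ n : ℕ, C ↥(cGL n e)

variable {C : ∀ (G : Type) [Group G], Prop}

/-- maps between the groups `cU` -/
theorem cU_hom {A B : Type} [Ring A] [Ring B] (e : A) (w : B) (ψ : A →+ B)
    (hm : ∀ x y, ψ (x * e * y) = ψ x * ψ y) (h1 : ∀ x, w * ψ x = ψ x) (h2 : ∀ x, ψ x * w = ψ x)
    (hi : ∀ a, e * a = a → a * e = a → ψ a = 0 → a = 0) :
    ∃ f : cU e →* cU w, Function.Injective f := by
  let F : cU e →* B :=
    { toFun := fun u => 1 + ψ (((u : Aˣ) : A) - 1)
      map_one' := by simp
      map_mul' := fun u v => by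
        have h3 : (((u * v : cU e) : Aˣ) : A) - 1 = (((u : Aˣ) : A) - 1) + (((v : Aˣ) : A) - 1) +
            (((u : Aˣ) : A) - 1) * e * (((v : Aˣ) : A) - 1) := by
          rw [u.2.2]
          push_cast
          noncomm_ring
        rw [h3, map_add, map_add, hm]
        noncomm_ring }
  have hF : ∀ u, F u = 1 + ψ (((u : Aˣ) : A) - 1) := fun u => rfl
  refine ⟨F.toHomUnits.codRestrict (cU w) fun u => ⟨?_, ?_⟩, ?_⟩
  · show w * (F u - 1) = F u - 1
    rw [hF, add_sub_cancel_left, h1]
  · show (F u - 1) * w = F u - 1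
    rw [hF, add_sub_cancel_left, h2]
  · rw [injective_iff_map_eq_one]
    intro u hu
    have h4 : F u = 1 := congrArg (fun x : cU w => ((x : Bˣ) : B)) hu
    rw [hF] at h4
    have h5 : ψ (((u : Aˣ) : A) - 1) = 0 := by
      have := congrArg (fun x => x - 1) h4
      simpa using this
    have h6 := hi _ u.2.1 u.2.2 h5
    apply Subtype.ext
    apply Units.ext
    simpa using sub_eq_zero.1 h6

/-- corners along injective ring homomorphisms -/
theorem C_cU_map (hC : Closed C) {A B : Type} [Ring A] [Ring B] (Φ : A →+* B)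
    (hΦ : Function.Injective Φ) {e : A} (he : e * e = e) (h : C ↥(cU (Φ e))) : C ↥(cU e) := by
  let ψ : A →+ B :=
    { toFun := fun a => Φ (e * a * e)
      map_zero' := by simp
      map_add' := fun a b => by rw [mul_add, add_mul, map_add] }
  have hψ : ∀ a, ψ a = Φ (e * a * e) := fun a => rfl
  obtain ⟨f, hf⟩ := cU_hom e (Φ e) ψ
    (by
      intro x y
      rw [hψ, hψ, hψ, ← map_mul]
      congr 1
      have : e * x * e * (e * y * e) = e * x * (e * e) * y * e := by noncomm_ring
      rw [this, he]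
      noncomm_ring)
    (by
      intro x
      rw [hψ, ← map_mul, ← mul_assoc, ← mul_assoc, he])
    (by
      intro x
      rw [hψ, ← map_mul, mul_assoc _ e e, he])
    (by
      intro a h1 h2 h3
      rw [hψ, h1, h2] at h3
      exact hΦ (by rw [h3, map_zero]))
  exact hC.of_injective _ _ f hf h

/-- other index sets -/
theorem C_index (hC : Closed C) {A : Type} [Ring A] {ι : Type} [Fintype ι] [DecidableEq ι] {e : A}
    (he : e * e = e) (h : CornerGLs C e) :
    C ↥(cU (Matrix.diagonal (fun _ => e) : Matrix ι ι A)) := by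
  have h1 : (Matrix.diagonal (fun _ => e) : Matrix ι ι A) * Matrix.diagonal (fun _ => e) =
      Matrix.diagonal (fun _ => e) := by
    rw [Matrix.diagonal_mul_diagonal]
    simp_rw [he]
  refine C_cU_map hC (Matrix.reindexRingEquiv A (Fintype.equivFin ι)).toRingHom
    (Matrix.reindexRingEquiv A (Fintype.equivFin ι)).injective h1 ?_
  have h2 : (Matrix.reindexRingEquiv A (Fintype.equivFin ι)).toRingHom
      (Matrix.diagonal (fun _ => e) : Matrix ι ι A) = dg (Fintype.card ι) e := by
    ext i j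
    simp [Matrix.diagonal_apply]
  rw [h2]
  exact h _

theorem C_two (hC : Closed C) {A : Type} [Ring A] {e : A} (he : e * e = e) (h : CornerGLs C e)
    (n : ℕ) : C ↥(cGL 2 (dg n e)) := by
  have h0 : dg n e * dg n e = dg n e := by
    rw [Matrix.diagonal_mul_diagonal]
    simp_rw [he]
  have h1 : dg 2 (dg n e) * dg 2 (dg n e) = dg 2 (dg n e) := by
    rw [Matrix.diagonal_mul_diagonal]
    simp_rw [h0]
  refine C_cU_map hC (Matrix.compRingEquiv (Fin 2) (Fin n) A).toRingHom
    (Matrix.compRingEquiv (Fin 2) (Fin n) A).injective h1 ?_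
  have h2 : (Matrix.compRingEquiv (Fin 2) (Fin n) A).toRingHom (dg 2 (dg n e)) =
      (Matrix.diagonal (fun _ => e) : Matrix (Fin 2 × Fin n) (Fin 2 × Fin n) A) := by
    ext ⟨i, i'⟩ ⟨j, j'⟩
    show (Matrix.diagonal (fun _ => dg n e) : Matrix (Fin 2) (Fin 2) (Matrix (Fin n) (Fin n) A)) i j
      i' j' = _
    rw [Matrix.diagonal_apply, Matrix.diagonal_apply]
    by_cases h3 : i = j
    · by_cases h4 : i' = j'
      · simp [h3, h4]
      · simp [h3, h4]
    · simp [h3]
  rw [h2]
  exact C_index hC he h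

/-- **extensions of rings by ideals with local units** -/
theorem ext_ring (hC : ClosedE C) {A B : Type} [Ring A] [Ring B] (π : A →+* B) (hB : GLs C B)
    (h : ∀ T : Set A, T.Finite → (∀ t ∈ T, π t = 0) →
      ∃ e : A, e * e = e ∧ CornerGLs C e ∧ ∀ t ∈ T, e * t = t ∧ t * e = t) : GLs C A := by
  intro n
  let f : (Matrix (Fin n) (Fin n) A)ˣ →* (Matrix (Fin n) (Fin n) B)ˣ :=
    Units.map (π.mapMatrix : Matrix (Fin n) (Fin n) A →+* Matrix (Fin n) (Fin n) B).toMonoidHom
  have hQ : C ((Matrix (Fin n) (Fin n) A)ˣ ⧸ f.ker) :=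
    hC.base.of_injective _ _ (QuotientGroup.kerLift f) (QuotientGroup.kerLift_injective f) (hB n)
  refine main hC f.ker hQ fun g _ => ?_
  refine ⟨Matrix (Fin n) (Fin n) A, inferInstance, f.ker.subtype, g,
    ⟨Subtype.val_injective, fun m => rfl⟩, ?_⟩
  intro E hE
  let T : Set A := (fun q : f.ker × Fin n × Fin n =>
    ((((q.1 : (Matrix (Fin n) (Fin n) A)ˣ) : Matrix (Fin n) (Fin n) A)) - 1) q.2.1 q.2.2) ''
      (E ×ˢ Set.univ)
  have hT : T.Finite := (hE.prod Set.finite_univ).image _
  obtain ⟨e, he, hCe, hte⟩ := h T hT (by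
    rintro _ ⟨⟨u, i, j⟩, _, rfl⟩
    have h1 : f u = 1 := u.2
    have h2 : π.mapMatrix ((u : (Matrix (Fin n) (Fin n) A)ˣ) : Matrix (Fin n) (Fin n) A) = 1 :=
      congrArg Units.val h1
    have h3 : π.mapMatrix (((u : (Matrix (Fin n) (Fin n) A)ˣ) : Matrix (Fin n) (Fin n) A) - 1) =
        0 := by
      rw [map_sub, h2, map_one, sub_self]
    exact congrFun (congrFun h3 i) j)
  refine ⟨dg n e, ?_, C_two hC.base he hCe n, ?_⟩
  · rw [Matrix.diagonal_mul_diagonal]
    simp_rw [he]
  · intro u hu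
    refine ⟨?_, ?_⟩
    · ext i j
      rw [Matrix.diagonal_mul]
      exact (hte _ ⟨(u, i, j), ⟨hu, Set.mem_univ _⟩, rfl⟩).1
    · ext i j
      rw [Matrix.mul_diagonal]
      exact (hte _ ⟨(u, i, j), ⟨hu, Set.mem_univ _⟩, rfl⟩).2

/-- **Morita invariance**: if `e = ∑ a i * b i` with `a i ∈ A w`, `b i ∈ w A`, then the groups
`GL_n(e A e)` embed in the groups `GL_m(w A w)` -/
theorem morita (hC : Closed C) {A : Type} [Ring A] {ι : Type} [Fintype ι] [DecidableEq ι] (e w : A)
    (hw : w * w = w) (a b : ι → A) (ha : ∀ i, a i * w = a i) (hb : ∀ i, w * b i = b i)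
    (hab : ∑ i, a i * b i = e) (h : CornerGLs C w) : CornerGLs C e := by
  intro n
  let ψ : Matrix (Fin n) (Fin n) A →+ Matrix (Fin n × ι) (Fin n × ι) A :=
    { toFun := fun x => Matrix.of fun p q => b p.2 * x p.1 q.1 * a q.2
      map_zero' := by ext p q; simp
      map_add' := fun x y => by ext p q; simp [mul_add, add_mul] }
  have hψ : ∀ x p q, ψ x p q = b p.2 * x p.1 q.1 * a q.2 := fun x p q => rfl
  obtain ⟨f, hf⟩ := cU_hom (dg n e) (Matrix.diagonal (fun _ => w) : Matrix (Fin n × ι) (Fin n × ι) A)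
    ψ
    (by
      intro x y
      ext p q
      rw [hψ, Matrix.mul_apply, Matrix.mul_apply, Fintype.sum_prod_type, Finset.mul_sum,
        Finset.sum_mul]
      refine Finset.sum_congr rfl fun k _ => ?_
      simp_rw [hψ]
      rw [Matrix.mul_diagonal]
      have h1 : ∀ j, b p.2 * x p.1 k * a j * (b j * y k q.1 * a q.2) =
          b p.2 * x p.1 k * (a j * b j) * (y k q.1 * a q.2) := fun j => by noncomm_ring
      simp_rw [h1]
      rw [← Finset.sum_mul, ← Finset.mul_sum, hab]
      noncomm_ring)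
    (by
      intro x
      ext p q
      rw [Matrix.diagonal_mul, hψ, ← mul_assoc, ← mul_assoc, hb])
    (by
      intro x
      ext p q
      rw [Matrix.mul_diagonal, hψ, mul_assoc _ _ w, ha])
    (by
      intro x h1 h2 h3
      ext i j
      have e1 : e * x i j = x i j := by
        have := congrFun (congrFun h1 i) j
        rwa [Matrix.diagonal_mul] at this
      have e2 : x i j * e = x i j := by
        have := congrFun (congrFun h2 i) j
        rwa [Matrix.mul_diagonal] at this
      rw [← e2, ← e1, ← hab, Finset.sum_mul, Finset.mul_sum]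
      refine Finset.sum_eq_zero fun k _ => ?_
      rw [Finset.sum_mul]
      refine Finset.sum_eq_zero fun l _ => ?_
      have h4 : b l * x i j * a k = 0 := congrFun (congrFun h3 (i, l)) (j, k)
      have h5 : a l * b l * x i j * (a k * b k) = a l * (b l * x i j * a k) * b k := by noncomm_ring
      rw [h5, h4, mul_zero, zero_mul])
  exact hC.of_injective _ _ f hf (C_index hC hw h)

end Pool.Agent.H40E9.LP
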